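import Pool.Agent.Lib.P901b45t.Word

/-!
The base case with four rows of length one (MP_901b45_co).
-/

set_option autoImplicit false

namespace Pool.Agent.P901b45t

variable {ι : Type} [DecidableEq ι]

theorem dbl_of (c : (ι → ℕ) → ℤ) (y : ι → ℤ) (N : ι → ℕ) (h1 : Path c (fun t _ => y t) N)
    (h2 : Path c (fun t _ => -y t) N) : Dbl c N :=
  ⟨_, _, h1, h2, fun _ _ _ => rfl⟩

theorem path4 (c : (ι → ℕ) → ℤ) (y : ι → ℤ) {a b d e : ι} {N : ι → ℕ}
    (hN : N = inc (inc (inc (inc 0 a) b) d) e) (h1 : y a = c (inc 0 a) - c 0)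
    (h2 : y b = c (inc (inc 0 a) b) - c (inc 0 a))
    (h3 : y d = c (inc (inc (inc 0 a) b) d) - c (inc (inc 0 a) b))
    (h4 : y e = c N - c (inc (inc (inc 0 a) b) d)) : Path c (fun t _ => y t) N := by
  subst hN
  exact .step _ _ (.step _ _ (.step _ _ (.step _ _ .nil h1) h2) h3) h4

/-- orders `a b d e` and `e d b a` -/
theorem dblA (c : (ι → ℕ) → ℤ) {a b d e : ι} (hab : a ≠ b) (had : a ≠ d) (hae : a ≠ e)
    (hbd : b ≠ d) (hbe : b ≠ e) (hde : d ≠ e) {N : ι → ℕ}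
    (hN : N = inc (inc (inc (inc 0 a) b) d) e) (hN' : N = inc (inc (inc (inc 0 e) d) b) a)
    (z0 : c 0 = 0) (zN : c N = 0) (s1 : c (inc 0 a) = 1)
    (s2 : c (inc 0 e) = 1) (t1 : c (inc (inc (inc 0 a) b) d) = 1)
    (t2 : c (inc (inc (inc 0 e) d) b) = 1)
    (hp : c (inc (inc 0 a) b) = c (inc (inc 0 e) d)) : Dbl c N := by
  set P := c (inc (inc 0 a) b) with hP
  refine dbl_of c (fun t => if t = a then 1 else if t = b then P - 1 else if t = d then 1 - P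
    else -1) N (path4 c _ hN ?_ ?_ ?_ ?_) (path4 c _ hN' ?_ ?_ ?_ ?_)
  · simp [s1, z0]
  · simp [hab.symm, s1, ← hP]
  · simp [had.symm, hbd.symm, t1, ← hP]
  · simp [hae.symm, hbe.symm, hde.symm, t1, zN]
  · simp [hae.symm, hbe.symm, hde.symm, s2, z0]
  · simp [had.symm, hbd.symm, s2, ← hp]
  · simp [hab.symm, t2, ← hp]
  · simp [t2, zN]

/-- orders `a b e d` and `d b e a` -/
theorem dblB (c : (ι → ℕ) → ℤ) {a b d e : ι} (hab : a ≠ b) (had : a ≠ d) (hae : a ≠ e)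
    (hbd : b ≠ d) (_hbe : b ≠ e) (hde : d ≠ e) {N : ι → ℕ}
    (hN : N = inc (inc (inc (inc 0 a) b) e) d) (hN' : N = inc (inc (inc (inc 0 d) b) e) a)
    (z0 : c 0 = 0) (zN : c N = 0) (s1 : c (inc 0 a) = 1)
    (s2 : c (inc 0 d) = 1) (t1 : c (inc (inc (inc 0 a) b) e) = 1)
    (t2 : c (inc (inc (inc 0 d) b) e) = 1)
    (p1 : c (inc (inc 0 a) b) = 1) (p2 : c (inc (inc 0 d) b) = 1) : Dbl c N := by
  refine dbl_of c (fun t => if t = a then 1 else if t = d then -1 else 0) N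
    (path4 c _ hN ?_ ?_ ?_ ?_) (path4 c _ hN' ?_ ?_ ?_ ?_)
  · simp [s1, z0]
  · simp [hab.symm, hbd, s1, p1]
  · simp [hae.symm, hde.symm, t1, p1]
  · simp [had.symm, t1, zN]
  · simp [had.symm, s2, z0]
  · simp [hab.symm, hbd, s2, p2]
  · simp [hae.symm, hde.symm, t2, p2]
  · simp [t2, zN]

/-- The base case with four rows of length one. -/
theorem base4 (c : (ι → ℕ) → ℤ) {i j k l : ι} (hij : i ≠ j) (hik : i ≠ k) (hil : i ≠ l)
    (hjk : j ≠ k) (hjl : j ≠ l) (hkl : k ≠ l) {N : ι → ℕ}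
    (hN : N = inc (inc (inc (inc 0 i) j) k) l) (z0 : c 0 = 0) (zN : c N = 0)
    (h1 : ∀ u, u = i ∨ u = j ∨ u = k ∨ u = l → c (inc 0 u) = 1)
    (h2 : ∀ u v, u = i ∨ u = j ∨ u = k ∨ u = l → v = i ∨ v = j ∨ v = k ∨ v = l → u ≠ v →
      1 ≤ c (inc (inc 0 u) v) ∧ c (inc (inc 0 u) v) ≤ 2)
    (h3 : ∀ u m, u = i ∨ u = j ∨ u = k ∨ u = l → inc m u = N → c m = 1) : Dbl c N := by
  have ki : i = i ∨ i = j ∨ i = k ∨ i = l := Or.inl rfl
  have kj : j = i ∨ j = j ∨ j = k ∨ j = l := Or.inr (Or.inl rfl)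
  have kk : k = i ∨ k = j ∨ k = k ∨ k = l := Or.inr (Or.inr (Or.inl rfl))
  have kl : l = i ∨ l = j ∨ l = k ∨ l = l := Or.inr (Or.inr (Or.inr rfl))
  have si := h1 i ki
  have sj := h1 j kj
  have sk := h1 k kk
  have sl := h1 l kl
  -- the permuted forms of `N`
  have e1 : inc (inc (inc (inc 0 l) k) j) i = N := by
    rw [hN, inc_comm (inc (inc 0 i) j) k l, inc_comm (inc 0 i) j l, inc_comm 0 i l,
      inc_comm (inc (inc 0 l) i) j k, inc_comm (inc 0 l) i k, inc_comm (inc (inc 0 l) k) i j]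
  have e2 : inc (inc (inc (inc 0 i) k) j) l = N := by
    rw [hN, inc_comm (inc 0 i) j k]
  have e3 : inc (inc (inc (inc 0 l) j) k) i = N := by
    rw [← e1, inc_comm (inc 0 l) k j]
  have e4 : inc (inc (inc (inc 0 j) i) l) k = N := by
    rw [hN, inc_comm 0 i j, inc_comm (inc (inc 0 j) i) k l]
  have e5 : inc (inc (inc (inc 0 k) i) l) j = N := by
    rw [hN, inc_comm (inc 0 i) j k, inc_comm 0 i k, inc_comm (inc (inc 0 k) i) j l]
  have e6 : inc (inc (inc (inc 0 i) j) k) l = N := hN.symm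
  have e7 : inc (inc (inc (inc 0 l) j) k) i = N := e3
  have e8 : inc (inc (inc (inc 0 l) k) j) i = N := e1
  have e9 : inc (inc (inc (inc 0 i) k) j) l = N := e2
  have e10 : inc (inc (inc (inc 0 k) l) i) j = N := by
    rw [← e5, inc_comm (inc 0 k) l i]
  have e11 : inc (inc (inc (inc 0 j) l) i) k = N := by
    rw [← e4, inc_comm (inc 0 j) l i]
  by_cases q1 : c (inc (inc 0 i) j) = c (inc (inc 0 l) k)
  · exact dblA c hij hik hil hjk hjl hkl hN e1.symm z0 zN si sl (h3 l _ kl e6) (h3 i _ ki e1) q1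
  by_cases q2 : c (inc (inc 0 i) k) = c (inc (inc 0 l) j)
  · exact dblA c hik hij hil hjk.symm hkl hjl e2.symm e3.symm z0 zN si sl (h3 l _ kl e2)
      (h3 i _ ki e3) q2
  have a1 := h2 i j ki kj hij
  have a2 := h2 l k kl kk hkl.symm
  have a3 := h2 i k ki kk hik
  have a4 := h2 l j kl kj hjl.symm
  rcases (by omega : c (inc (inc 0 i) j) = 1 ∨ c (inc (inc 0 l) k) = 1) with r1 | r1 <;>
  rcases (by omega : c (inc (inc 0 i) k) = 1 ∨ c (inc (inc 0 l) j) = 1) with r2 | r2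
  · -- share `i`
    exact dblB c (a := j) (b := i) (d := k) (e := l) hij.symm hjk hjl hik hil hkl e4.symm e5.symm
      z0 zN sj sk (h3 k _ kk e4) (h3 j _ kj e5) (by rw [inc_comm]; exact r1)
      (by rw [inc_comm]; exact r2)
  · -- share `j`
    exact dblB c (a := i) (b := j) (d := l) (e := k) hij hil hik hjl hjk hkl.symm hN e3.symm
      z0 zN si sl (h3 l _ kl e6) (h3 i _ ki e3) r1 r2
  · -- share `k`
    exact dblB c (a := l) (b := k) (d := i) (e := j) hkl.symm hil.symm hjl.symm hik.symm hjk.symm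
      hij e1.symm e2.symm z0 zN sl si (h3 i _ ki e1) (h3 l _ kl e2) r1 r2
  · -- share `l`
    exact dblB c (a := k) (b := l) (d := j) (e := i) hkl hjk.symm hik.symm hjl.symm hil.symm
      hij.symm e10.symm e11.symm z0 zN sk sj (h3 j _ kj e10) (h3 k _ kk e11)
      (by rw [inc_comm]; exact r1) (by rw [inc_comm]; exact r2)

end Pool.Agent.P901b45t
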