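import Pool.Agent.Lib.P901b45t.Base4

/-!
Double paths for a function on a box with at most four odd side lengths (MP_901b45_co).
-/

set_option autoImplicit false

namespace Pool.Agent.P901b45t

open Finset

section

variable {ι : Type} [DecidableEq ι]

theorem Path.congr {c : (ι → ℕ) → ℤ} {x y : ι → ℕ → ℤ} {N : ι → ℕ} (hp : Path c x N) :
    (∀ i k, k < N i → x i k = y i k) → Path c y N := by
  induction hp with
  | nil => intro _; exact Path.nil
  | step n i _ hx ih =>
    intro h
    refine Path.step n i (ih (fun j k hk => h j k (lt_of_lt_of_le hk (le_inc n i j)))) ?_
    rw [← h i (n i) (by rw [inc_self]; omega), hx]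

theorem Path.append {c : (ι → ℕ) → ℤ} {x x2 : ι → ℕ → ℤ} {b n : ι → ℕ} (h1 : Path c x b)
    (h2 : Path (fun m => c (fun t => b t + m t)) x2 n) :
    Path c (fun i k => if k < b i then x i k else x2 i (k - b i)) (fun t => b t + n t) := by
  induction h2 with
  | nil =>
    have e : (fun t => b t + (0 : ι → ℕ) t) = b := by funext t; simp
    rw [e]
    exact h1.congr (fun i k hk => by simp [hk])
  | step n i _ hx ih =>
    have e : (fun t => b t + inc n i t) = inc (fun t => b t + n t) i := by
      funext t
      simp only [inc]
      split_ifs <;> omega
    rw [e]
    refine Path.step _ i ih ?_
    have e2 : b i + n i - b i = n i := by omega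
    show (if b i + n i < b i then x i (b i + n i) else x2 i (b i + n i - b i)) = _
    rw [if_neg (by omega), e2, hx, ← e]

structure Hyp (c : (ι → ℕ) → ℤ) (N : ι → ℕ) : Prop where
  z0 : c 0 = 0
  zN : c N = 0
  nn : ∀ n, (∀ t, n t ≤ N t) → 0 ≤ c n
  st : ∀ n i, (∀ t, inc n i t ≤ N t) → c (inc n i) ≤ c n + 1 ∧ c n ≤ c (inc n i) + 1
  cc : ∀ n i, (∀ t, inc (inc n i) i t ≤ N t) →
    c (inc (inc n i) i) + c n ≤ c (inc n i) + c (inc n i)

/-- the wrapping step -/
theorem wrap {c : (ι → ℕ) → ℤ} {N : ι → ℕ} {i : ι} (hN : 2 ≤ N i) (z0 : c 0 = 0) (zN : c N = 0)
    (f1 : c (inc 0 i) = 1) {N1 : ι → ℕ} (hN1 : N1 = fun t => if t = i then N t - 2 else N t)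
    (f2 : c (inc N1 i) = 1) {x0 : ι → ℕ → ℤ} (hp : Path (fun n => c (inc n i) - 1) x0 N1) :
    Path c (fun j k => if j = i then (if k = 0 then 1 else if k = N i - 1 then -1 else
      x0 i (k - 1)) else x0 j k) N := by
  set y : ι → ℕ → ℤ := fun j k => if j = i then (if k = 0 then 1 else if k = N i - 1 then -1 else
      x0 i (k - 1)) else x0 j k with hy
  have hN1i : N1 i = N i - 2 := by rw [hN1]; simp
  have key : ∀ n, Path (fun n => c (inc n i) - 1) x0 n → (∀ t, n t ≤ N1 t) →
      Path c y (inc n i) := by
    intro n hn
    induction hn with
    | nil =>
      intro _
      refine Path.step 0 i Path.nil ?_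
      show y i 0 = _
      rw [f1, z0]
      simp [hy]
    | step n j _ hx ih =>
      intro hle
      rw [inc_comm]
      refine Path.step (inc n i) j (ih (fun t => (le_inc n j t).trans (hle t))) ?_
      have hx' : x0 j (n j) = (c (inc (inc n j) i) - 1) - (c (inc n i) - 1) := hx
      rw [inc_comm n i j]
      by_cases hj : j = i
      · subst hj
        rw [inc_self]
        have h1 := hle j
        rw [inc_self, hN1i] at h1
        have h2 : y j (n j + 1) = x0 j (n j) := by
          simp only [hy, if_true]
          rw [if_neg (by omega), if_neg (by omega)]
          rfl
        rw [h2, hx']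
        ring
      · rw [inc_ne n hj]
        have h2 : y j (n j) = x0 j (n j) := by
          simp only [hy]
          rw [if_neg hj]
        rw [h2, hx']
        ring
  have h1 := key N1 hp (fun t => le_rfl)
  have h2 : inc (inc N1 i) i = N := by
    funext t
    simp only [inc, hN1]
    by_cases ht : t = i
    · subst ht
      simp
      omega
    · simp [ht]
  have h3 := Path.step (inc N1 i) i h1 (by
    rw [h2, zN, f2, inc_self, hN1i]
    simp only [hy, if_true]
    rw [if_neg (by omega), if_pos (by omega)]
    rfl)
  rw [h2] at h3
  exact h3

theorem zero1 {f : ℕ → ℤ} {M s0 : ℕ} (nn : ∀ s, s ≤ M → 0 ≤ f s)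
    (cc : ∀ s, s + 2 ≤ M → f (s + 2) + f s ≤ f (s + 1) + f (s + 1)) (h0 : 0 < s0) (h1 : s0 < M)
    (hf : f s0 = 0) : ∀ s, s ≤ M → f s = 0 := by
  have nb : ∀ s, 0 < s → s < M → f s = 0 → f (s + 1) = 0 ∧ f (s - 1) = 0 := by
    intro s a1 a2 a3
    have h2 := cc (s - 1) (by omega)
    have e1 : s - 1 + 2 = s + 1 := by omega
    have e2 : s - 1 + 1 = s := by omega
    rw [e1, e2, a3] at h2
    have h3 := nn (s + 1) (by omega)
    have h4 := nn (s - 1) (by omega)
    constructor <;> omega
  have up : ∀ d, s0 + d ≤ M → f (s0 + d) = 0 := by
    intro d
    induction d with
    | zero => intro _; exact hf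
    | succ d ih =>
      intro hd
      exact (nb (s0 + d) (by omega) (by omega) (ih (by omega))).1
  have down : ∀ d, d ≤ s0 → f (s0 - d) = 0 := by
    intro d
    induction d with
    | zero => intro _; exact hf
    | succ d ih =>
      intro hd
      have := (nb (s0 - d) (by omega) (by omega) (ih (by omega))).2
      have e : s0 - d - 1 = s0 - (d + 1) := by omega
      rw [e] at this
      exact this
  intro s hs
  rcases le_total s0 s with h | h
  · have := up (s - s0) (by omega)
    have e : s0 + (s - s0) = s := by omega
    rw [e] at this
    exact this
  · have := down (s0 - s) (by omega)
    have e : s0 - (s0 - s) = s := by omega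
    rw [e] at this
    exact this

/-- replace the coordinate `i` -/
def upd (n : ι → ℕ) (i : ι) (s : ℕ) : ι → ℕ := fun t => if t = i then s else n t

theorem zero_line {c : (ι → ℕ) → ℤ} {N n : ι → ℕ} {i : ι} (H : Hyp c N) (hn : ∀ t, n t ≤ N t)
    (h0 : 0 < n i) (h1 : n i < N i) (hc : c n = 0) : ∀ s, s ≤ N i → c (upd n i s) = 0 := by
  have hinc : ∀ s, inc (upd n i s) i = upd n i (s + 1) := by
    intro s
    funext t
    simp only [inc, upd]
    split_ifs <;> rfl
  have hle : ∀ s, s ≤ N i → ∀ t, upd n i s t ≤ N t := by
    intro s hs t
    simp only [upd]
    split_ifs with h
    · rw [h]; exact hs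
    · exact hn t
  refine zero1 (f := fun s => c (upd n i s)) (s0 := n i) (fun s hs => H.nn _ (hle s hs)) ?_ h0 h1 ?_
  · intro s hs
    have h2 := H.cc (upd n i s) i (by
      rw [hinc, hinc]
      exact hle _ hs)
    rw [hinc, hinc] at h2
    exact h2
  · have e : upd n i (n i) = n := by
      funext t
      simp only [upd]
      split_ifs with h
      · rw [h]
      · rfl
    show c (upd n i (n i)) = 0
    rw [e, hc]

end

section

variable {ι : Type} [DecidableEq ι] [Fintype ι]

theorem corner {c : (ι → ℕ) → ℤ} {N : ι → ℕ} (H : Hyp c N) : ∀ (m : ℕ) (a : ι → ℕ),
    (univ.filter (fun t => 0 < a t ∧ a t < N t)).card = m → (∀ t, a t ≤ N t) → a ≠ 0 → a ≠ N →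
    c a = 0 → (∃ b : ι → ℕ, (∀ t, b t = 0 ∨ b t = N t) ∧ b ≠ 0 ∧ b ≠ N ∧ c b = 0) ∨
      (∃ i, (∀ t, t ≠ i → N t = 0) ∧ ∀ s, s ≤ N i → c (upd 0 i s) = 0) := by
  intro m
  induction m using Nat.strong_induction_on with
  | _ m ih =>
    intro a hm ha ha0 haN hc
    by_cases hint : ∃ i, 0 < a i ∧ a i < N i
    · obtain ⟨i, hi0, hi1⟩ := hint
      have hz := zero_line H ha hi0 hi1 hc
      have hcard : ∀ s, (s = 0 ∨ s = N i) →
          (univ.filter (fun t => 0 < upd a i s t ∧ upd a i s t < N t)).card < m := by
        intro s hs
        rw [← hm]
        apply card_lt_card
        rw [ssubset_iff_of_subset]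
        · refine ⟨i, by simp [hi0, hi1], ?_⟩
          intro hmem
          have h5 := (Finset.mem_filter.1 hmem).2
          simp only [upd, if_true] at h5
          rcases hs with h | h <;> omega
        · intro t ht
          replace ht := (Finset.mem_filter.1 ht).2
          refine Finset.mem_filter.2 ⟨mem_univ t, ?_⟩
          simp only [upd] at ht
          by_cases hti : t = i
          · rw [if_pos hti] at ht
            subst hti
            rcases hs with h | h <;> omega
          · rw [if_neg hti] at ht
            exact ht
      have hle : ∀ s, s ≤ N i → ∀ t, upd a i s t ≤ N t := by
        intro s hs t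
        simp only [upd]
        split_ifs with h
        · rw [h]; exact hs
        · exact ha t
      by_cases h0 : upd a i 0 = 0
      · by_cases h1 : upd a i (N i) = N
        · right
          have hat : ∀ t, t ≠ i → a t = 0 := by
            intro t ht
            have := congrFun h0 t
            simpa [upd, ht] using this
          refine ⟨i, ?_, ?_⟩
          · intro t ht
            have := congrFun h1 t
            simp only [upd, if_neg ht] at this
            rw [← this, hat t ht]
          · intro s hs
            have e : upd a i s = upd 0 i s := by
              funext t
              simp only [upd]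
              split_ifs with h
              · rfl
              · exact hat t h
            rw [← e]
            exact hz s hs
        · refine ih _ (hcard (N i) (Or.inr rfl)) (upd a i (N i)) rfl (hle _ le_rfl) ?_ h1
            (hz _ le_rfl)
          intro h
          have := congrFun h i
          simp only [upd, if_true, Pi.zero_apply] at this
          omega
      · refine ih _ (hcard 0 (Or.inl rfl)) (upd a i 0) rfl (hle _ (by omega)) h0 ?_
          (hz _ (by omega))
        intro h
        have := congrFun h i
        simp only [upd, if_true] at this
        omega
    · push Not at hint
      left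
      refine ⟨a, ?_, ha0, haN, hc⟩
      intro t
      have h1 := ha t
      by_cases h2 : 0 < a t
      · have := hint t h2
        right; omega
      · left; omega

theorem dbl : ∀ (s : ℕ) (N : ι → ℕ) (c : (ι → ℕ) → ℤ),
    ∑ t, N t = s → (univ.filter (fun t => N t % 2 = 1)).card ≤ 4 → Hyp c N → Dbl c N := by
  intro s
  induction s using Nat.strong_induction_on with
  | _ s ih =>
    intro N c hs hodd H
    by_cases hz : ∃ a : ι → ℕ, (∀ t, a t ≤ N t) ∧ a ≠ 0 ∧ a ≠ N ∧ c a = 0
    · obtain ⟨a, ha, ha0, haN, hca⟩ := hz
      rcases corner H _ a rfl ha ha0 haN hca with ⟨b, hb, hb0, hbN, hcb⟩ | ⟨i, hi, hzi⟩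
      · have hbl : ∀ t, b t ≤ N t := by
          intro t
          rcases hb t with h | h <;> omega
        set M : ι → ℕ := fun t => N t - b t with hM
        have hbM : (fun t => b t + M t) = N := by
          funext t
          have := hbl t
          simp only [hM]
          omega
        have s1 : ∑ t, b t < s := by
          rw [← hs]
          obtain ⟨t, ht⟩ : ∃ t, b t ≠ N t := by
            by_contra hcon
            push Not at hcon
            exact hbN (funext hcon)
          exact sum_lt_sum (fun t _ => hbl t) ⟨t, mem_univ t, lt_of_le_of_ne (hbl t) ht⟩
        have s2 : ∑ t, M t < s := by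
          rw [← hs]
          obtain ⟨t, ht⟩ : ∃ t, b t ≠ 0 := by
            by_contra hcon
            push Not at hcon
            exact hb0 (funext hcon)
          refine sum_lt_sum (fun t _ => by simp only [hM]; omega) ⟨t, mem_univ t, ?_⟩
          have := hbl t
          simp only [hM]
          omega
        have H1 : Hyp c b := ⟨H.z0, hcb, fun n hn => H.nn n (fun t => (hn t).trans (hbl t)),
          fun n i hn => H.st n i (fun t => (hn t).trans (hbl t)),
          fun n i hn => H.cc n i (fun t => (hn t).trans (hbl t))⟩
        have einc : ∀ (m : ι → ℕ) (i : ι),
            (fun t => b t + inc m i t) = inc (fun t => b t + m t) i := by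
          intro m i
          funext t
          simp only [inc]
          split_ifs <;> omega
        have hMle : ∀ m : ι → ℕ, (∀ t, m t ≤ M t) → ∀ t, b t + m t ≤ N t := by
          intro m hm t
          have h1 := hm t
          have h2 := hbl t
          simp only [hM] at h1
          omega
        have H2 : Hyp (fun m => c (fun t => b t + m t)) M := by
          refine ⟨?_, ?_, ?_, ?_, ?_⟩
          · have e : (fun t => b t + (0 : ι → ℕ) t) = b := by funext t; simp
            show c (fun t => b t + (0 : ι → ℕ) t) = 0
            rw [e, hcb]
          · show c (fun t => b t + M t) = 0
            rw [hbM, H.zN]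
          · intro m hm
            exact H.nn _ (hMle m hm)
          · intro m i hm
            have h1 := H.st (fun t => b t + m t) i (by
              rw [← einc]
              exact hMle _ hm)
            rw [← einc] at h1
            exact h1
          · intro m i hm
            have h1 := H.cc (fun t => b t + m t) i (by
              rw [← einc, ← einc]
              exact hMle _ hm)
            rw [← einc, ← einc] at h1
            exact h1
        have o1 : (univ.filter (fun t => b t % 2 = 1)).card ≤ 4 := by
          refine (card_le_card ?_).trans hodd
          intro t ht
          have h1 := (Finset.mem_filter.1 ht).2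
          refine Finset.mem_filter.2 ⟨mem_univ t, ?_⟩
          rcases hb t with h | h <;> omega
        have o2 : (univ.filter (fun t => M t % 2 = 1)).card ≤ 4 := by
          refine (card_le_card ?_).trans hodd
          intro t ht
          have h1 := (Finset.mem_filter.1 ht).2
          refine Finset.mem_filter.2 ⟨mem_univ t, ?_⟩
          simp only [hM] at h1
          rcases hb t with h | h <;> omega
        obtain ⟨x, x', p1, p2, p3⟩ := ih _ s1 b c rfl o1 H1
        obtain ⟨y, y', q1, q2, q3⟩ := ih _ s2 M _ rfl o2 H2
        have r1 := p1.append q1
        have r2 := p2.append q2
        rw [hbM] at r1 r2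
        refine ⟨_, _, r1, r2, ?_⟩
        intro i k hk
        rcases hb i with h | h
        · have hMi : M i = N i := by simp only [hM]; omega
          show (if k < b i then x' i k else y' i (k - b i)) =
            -(if N i - 1 - k < b i then x i (N i - 1 - k) else y i (N i - 1 - k - b i))
          rw [if_neg (by omega), if_neg (by omega), h, q3 i (k - 0) (by omega), hMi]
          rfl
        · show (if k < b i then x' i k else y' i (k - b i)) =
            -(if N i - 1 - k < b i then x i (N i - 1 - k) else y i (N i - 1 - k - b i))
          rw [if_pos (by omega), if_pos (by omega), p3 i k (by omega), h]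
      · refine ⟨fun _ _ => 0, fun _ _ => 0, ?_, ?_, by simp⟩
        all_goals
          have key : ∀ k, k ≤ N i → Path c (fun _ _ => 0) (upd 0 i k) := by
            intro k
            induction k with
            | zero =>
              intro _
              have e : upd (0 : ι → ℕ) i 0 = 0 := by
                funext t
                simp [upd]
              rw [e]
              exact Path.nil
            | succ k ihk =>
              intro hk
              have e : inc (upd (0 : ι → ℕ) i k) i = upd 0 i (k + 1) := by
                funext t
                simp only [inc, upd]
                split_ifs <;> rfl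
              rw [← e]
              refine Path.step _ i (ihk (by omega)) ?_
              rw [e, hzi _ hk, hzi k (by omega)]
              rfl
          have e : upd 0 i (N i) = N := by
            funext t
            simp only [upd]
            split_ifs with h
            · rw [h]
            · rw [hi t h]; rfl
          rw [← e]
          exact key _ le_rfl
    · push Not at hz
      have hpos : ∀ a : ι → ℕ, (∀ t, a t ≤ N t) → a ≠ 0 → a ≠ N → 1 ≤ c a := by
        intro a h1 h2 h3
        have := hz a h1 h2 h3
        have := H.nn a h1
        omega
      by_cases h2 : ∃ i, 2 ≤ N i
      · obtain ⟨i, hi⟩ := h2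
        set N1 : ι → ℕ := fun t => if t = i then N t - 2 else N t with hN1
        have hN1i : N1 i = N i - 2 := by simp [hN1]
        have hle1 : ∀ n : ι → ℕ, (∀ t, n t ≤ N1 t) → ∀ t, inc (inc n i) i t ≤ N t := by
          intro n hn t
          have h3 := hn t
          simp only [hN1] at h3
          simp only [inc]
          by_cases h4 : t = i
          · subst h4
            simp at h3 ⊢
            omega
          · simp [h4] at h3 ⊢
            exact h3
        have hle2 : ∀ n : ι → ℕ, (∀ t, n t ≤ N1 t) → ∀ t, inc n i t ≤ N t := fun n hn t =>
          (le_inc _ i t).trans (hle1 n hn t)
        have hn0 : ∀ n : ι → ℕ, inc n i ≠ 0 := by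
          intro n h
          have := congrFun h i
          rw [inc_self] at this
          simp at this
        have hnN : ∀ n : ι → ℕ, (∀ t, n t ≤ N1 t) → inc n i ≠ N := by
          intro n hn h
          have h3 := congrFun h i
          rw [inc_self] at h3
          have h4 := hn i
          omega
        have h0le : ∀ t, (0 : ι → ℕ) t ≤ N1 t := fun t => Nat.zero_le _
        have eN : inc (inc N1 i) i = N := by
          funext t
          simp only [inc, hN1]
          by_cases ht : t = i
          · subst ht
            simp
            omega
          · simp [ht]
        have f1 : c (inc 0 i) = 1 := by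
          have h3 := hpos _ (hle2 0 h0le) (hn0 _) (hnN 0 h0le)
          have h4 := (H.st 0 i (hle2 0 h0le)).1
          rw [H.z0] at h4
          omega
        have f2 : c (inc N1 i) = 1 := by
          have h3 := hpos _ (hle2 N1 (fun _ => le_rfl)) (hn0 _) (hnN N1 (fun _ => le_rfl))
          have h4 := (H.st (inc N1 i) i (hle1 N1 (fun _ => le_rfl))).2
          rw [eN, H.zN] at h4
          omega
        have s1 : ∑ t, N1 t < s := by
          rw [← hs]
          refine sum_lt_sum (fun t _ => ?_) ⟨i, mem_univ i, by omega⟩
          simp only [hN1]
          split_ifs <;> omega
        have H1 : Hyp (fun n => c (inc n i) - 1) N1 := by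
          refine ⟨?_, ?_, ?_, ?_, ?_⟩
          · show c (inc 0 i) - 1 = 0
            rw [f1]; rfl
          · show c (inc N1 i) - 1 = 0
            rw [f2]; rfl
          · intro n hn
            have h3 := hpos _ (hle2 n hn) (hn0 _) (hnN n hn)
            show 0 ≤ c (inc n i) - 1
            omega
          · intro n j hn
            have h3 := H.st (inc n i) j (by
              rw [inc_comm]
              exact hle2 _ hn)
            rw [inc_comm n i j] at h3
            show c (inc (inc n j) i) - 1 ≤ c (inc n i) - 1 + 1 ∧
              c (inc n i) - 1 ≤ c (inc (inc n j) i) - 1 + 1
            constructor <;> linarith [h3.1, h3.2]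
          · intro n j hn
            have e1 : inc (inc (inc n i) j) j = inc (inc (inc n j) j) i := by
              rw [inc_comm n i j, inc_comm (inc n j) i j]
            have h3 := H.cc (inc n i) j (by
              rw [e1]
              exact hle2 _ hn)
            rw [e1, inc_comm n i j] at h3
            show c (inc (inc (inc n j) j) i) - 1 + (c (inc n i) - 1) ≤
              c (inc (inc n j) i) - 1 + (c (inc (inc n j) i) - 1)
            linarith
        have o1 : (univ.filter (fun t => N1 t % 2 = 1)).card ≤ 4 := by
          refine (card_le_card ?_).trans hodd
          intro t ht
          have h1 := (Finset.mem_filter.1 ht).2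
          refine Finset.mem_filter.2 ⟨mem_univ t, ?_⟩
          simp only [hN1] at h1
          by_cases h3 : t = i
          · subst h3
            simp only [if_true] at h1
            omega
          · rw [if_neg h3] at h1
            exact h1
        obtain ⟨x, x', p1, p2, p3⟩ := ih _ s1 N1 _ rfl o1 H1
        have r1 := wrap hi H.z0 H.zN f1 hN1 f2 p1
        have r2 := wrap hi H.z0 H.zN f1 hN1 f2 p2
        refine ⟨_, _, r1, r2, ?_⟩
        intro j k hk
        by_cases hj : j = i
        · subst hj
          simp only [if_true]
          by_cases k0 : k = 0
          · subst k0
            rw [if_pos rfl, if_neg (by omega), if_pos (by omega)]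
            rfl
          · rw [if_neg k0]
            by_cases k1 : k = N j - 1
            · rw [if_pos k1, if_pos (by omega)]
            · rw [if_neg k1, if_neg (by omega), if_neg (by omega), p3 j (k - 1) (by omega)]
              have e : N1 j - 1 - (k - 1) = N j - 1 - k - 1 := by omega
              rw [e]
        · simp only [if_neg hj]
          have e : N1 j = N j := by simp [hN1, hj]
          rw [p3 j k (by omega), e]
      · push Not at h2
        -- all rows have length at most one
        set T : Finset ι := univ.filter (fun t => N t = 1) with hT
        have hN : ∀ t, N t = if t ∈ T then 1 else 0 := by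
          intro t
          have h3 := h2 t
          by_cases h4 : N t = 1
          · have h5 : t ∈ T := by
              rw [hT]
              exact Finset.mem_filter.2 ⟨mem_univ t, h4⟩
            rw [if_pos h5, h4]
          · have h5 : t ∉ T := by
              intro h6
              rw [hT] at h6
              exact h4 (Finset.mem_filter.1 h6).2
            rw [if_neg h5]
            omega
        have hTc : T.card ≤ 4 := by
          refine (card_le_card ?_).trans hodd
          intro t ht
          rw [hT] at ht
          have h1 := (Finset.mem_filter.1 ht).2
          refine Finset.mem_filter.2 ⟨mem_univ t, ?_⟩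
          omega
        have hcases : T.card = 0 ∨ T.card = 1 ∨ T.card = 2 ∨ T.card = 3 ∨ T.card = 4 := by omega
        rcases hcases with h | h | h | h | h
        · rw [card_eq_zero] at h
          have e : N = 0 := by
            funext t
            rw [hN, h]
            simp
          rw [e]
          exact ⟨0, 0, Path.nil, Path.nil, by simp⟩
        · obtain ⟨i, hi⟩ := card_eq_one.1 h
          have e : N = inc 0 i := by
            funext t
            rw [hN, hi]
            simp [inc]
          have hp : Path c (fun _ _ => 0) N := by
            rw [e]
            refine Path.step 0 i Path.nil ?_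
            rw [← e, H.zN, H.z0]
            rfl
          exact ⟨fun _ _ => 0, fun _ _ => 0, hp, hp, by simp⟩
        · obtain ⟨i, j, hij, hTij⟩ := card_eq_two.1 h
          have e : N = inc (inc 0 i) j := by
            funext t
            rw [hN, hTij]
            simp only [inc, mem_insert, mem_singleton, Pi.zero_apply]
            by_cases h3 : t = i
            · subst h3
              simp [hij]
            · by_cases h4 : t = j
              · subst h4
                simp [h3]
              · simp [h3, h4]
          have v : ∀ u w, u ≠ w → N = inc (inc 0 u) w → c (inc 0 u) = 1 := by
            intro u w huw he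
            have h3 := hpos (inc 0 u) (by rw [he]; exact le_inc _ w) (by
                intro h5
                have := congrFun h5 u
                rw [inc_self] at this
                simp at this) (by
                intro h5
                have := congrFun h5 w
                rw [he, inc_self] at this
                omega)
            have h4 := (H.st 0 u (by rw [he]; exact le_inc _ w)).1
            rw [H.z0] at h4
            omega
          have pth : ∀ (u w : ι) (x : ι → ℕ → ℤ), u ≠ w → N = inc (inc 0 u) w → x u 0 = 1 →
              x w 0 = -1 → Path c x N := by
            intro u w x huw he x1 x2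
            rw [he]
            refine Path.step _ w (Path.step 0 u Path.nil ?_) ?_
            · rw [v u w huw he, H.z0]
              exact x1
            · rw [← he, H.zN, v u w huw he, inc_ne 0 huw.symm]
              exact x2
          refine ⟨fun t _ => if t = i then 1 else -1, fun t _ => if t = i then -1 else 1,
            pth i j _ hij e (by simp) (by simp [hij.symm]),
            pth j i _ hij.symm (by rw [inc_comm]; exact e) (by simp [hij.symm]) (by simp), ?_⟩
          intro t k hk
          by_cases h3 : t = i
          · simp [h3]
          · simp [h3]
        · obtain ⟨i, j, k, hij, hik, hjk, hTij⟩ := card_eq_three.1 h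
          have e : N = inc (inc (inc 0 i) j) k := by
            funext t
            rw [hN, hTij]
            simp only [inc, mem_insert, mem_singleton, Pi.zero_apply]
            by_cases h3 : t = i
            · subst h3
              simp [hij, hik]
            · by_cases h4 : t = j
              · subst h4
                simp [h3, hjk]
              · by_cases h5 : t = k
                · subst h5
                  simp [h3, h4]
                · simp [h3, h4, h5]
          have v1 : ∀ u w z : ι, u ≠ w → u ≠ z → N = inc (inc (inc 0 u) w) z →
              c (inc 0 u) = 1 := by
            intro u w z huw huz he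
            have hle : ∀ t, inc 0 u t ≤ N t := by
              intro t
              rw [he]
              exact (le_inc _ w t).trans (le_inc _ z t)
            have h3 := hpos (inc 0 u) hle (by
                intro h5
                have := congrFun h5 u
                rw [inc_self] at this
                simp at this) (by
                intro h5
                have := congrFun h5 z
                rw [he, inc_self, inc_ne 0 huz.symm] at this
                simp at this)
            have h4 := (H.st 0 u hle).1
            rw [H.z0] at h4
            omega
          have v2 : ∀ u w z : ι, w ≠ z → u ≠ z → N = inc (inc (inc 0 u) w) z →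
              c (inc (inc 0 u) w) = 1 := by
            intro u w z hwz huz he
            have hle : ∀ t, inc (inc 0 u) w t ≤ N t := by
              intro t
              rw [he]
              exact le_inc _ z t
            have h3 := hpos (inc (inc 0 u) w) hle (by
                intro h5
                have := congrFun h5 w
                rw [inc_self] at this
                simp at this) (by
                intro h5
                have := congrFun h5 z
                rw [he, inc_self] at this
                omega)
            have h4 := (H.st (inc (inc 0 u) w) z (by rw [← he]; exact fun t => le_rfl)).2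
            rw [← he, H.zN] at h4
            omega
          have pth : ∀ (u w z : ι) (x : ι → ℕ → ℤ), u ≠ w → u ≠ z → w ≠ z →
              N = inc (inc (inc 0 u) w) z → x u 0 = 1 → x w 0 = 0 → x z 0 = -1 → Path c x N := by
            intro u w z x huw huz hwz he x1 x2 x3
            rw [he]
            refine Path.step _ z (Path.step _ w (Path.step 0 u Path.nil ?_) ?_) ?_
            · rw [v1 u w z huw huz he, H.z0]
              exact x1
            · rw [v1 u w z huw huz he, v2 u w z hwz huz he, inc_ne 0 huw.symm]
              exact x2
            · rw [← he, H.zN, v2 u w z hwz huz he, inc_ne _ hwz.symm, inc_ne 0 huz.symm]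
              exact x3
          have e' : N = inc (inc (inc 0 k) j) i := by
            rw [e]
            rw [inc_comm (inc 0 i) j k, inc_comm 0 i k, inc_comm (inc 0 k) i j]
          refine ⟨fun t _ => if t = i then 1 else if t = k then -1 else 0,
            fun t _ => if t = i then -1 else if t = k then 1 else 0,
            pth i j k _ hij hik hjk e (by simp) (by simp [hij.symm, hjk])
              (by simp [hik.symm]),
            pth k j i _ hjk.symm hik.symm hij.symm e' (by simp [hik.symm])
              (by simp [hij.symm, hjk]) (by simp), ?_⟩
          intro t l hl
          by_cases h3 : t = i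
          · simp [h3]
          · by_cases h4 : t = k
            · simp [h4, hik.symm]
            · simp [h3, h4]
        · obtain ⟨i, hiT⟩ : T.Nonempty := by
            rw [← card_pos]
            omega
          have hc3 : (T.erase i).card = 3 := by
            rw [card_erase_of_mem hiT]
            omega
          obtain ⟨j, k, l, hjk, hjl, hkl, hE⟩ := card_eq_three.1 hc3
          have hj : j ∈ T.erase i := by rw [hE]; simp
          have hk : k ∈ T.erase i := by rw [hE]; simp
          have hl : l ∈ T.erase i := by rw [hE]; simp
          have hij : i ≠ j := (mem_erase.1 hj).1.symm
          have hik : i ≠ k := (mem_erase.1 hk).1.symm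
          have hil : i ≠ l := (mem_erase.1 hl).1.symm
          have hTe : T = {i, j, k, l} := by
            rw [← insert_erase hiT, hE]
          have e : N = inc (inc (inc (inc 0 i) j) k) l := by
            funext t
            rw [hN, hTe]
            simp only [inc, mem_insert, mem_singleton, Pi.zero_apply]
            by_cases h3 : t = i
            · subst h3
              simp [hij, hik, hil]
            · by_cases h4 : t = j
              · subst h4
                simp [h3, hjk, hjl]
              · by_cases h5 : t = k
                · subst h5
                  simp [h3, h4, hkl]
                · by_cases h6 : t = l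
                  · subst h6
                    simp [h3, h4, h5]
                  · simp [h3, h4, h5, h6]
          have memT : ∀ u, (u = i ∨ u = j ∨ u = k ∨ u = l) → u ∈ T := by
            intro u hu
            rw [hTe]
            simpa using hu
          have N1 : ∀ u, u ∈ T → N u = 1 := fun u hu => by rw [hN, if_pos hu]
          -- the sum of the coordinates
          have hsumN : ∑ t, N t = 4 := by
            rw [sum_congr rfl (fun t _ => hN t), sum_ite_mem, univ_inter, sum_const, h]
            rfl
          have hsinc : ∀ (n : ι → ℕ) (u : ι), ∑ t, inc n u t = ∑ t, n t + 1 := by
            intro n u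
            have h5 : ∀ t, inc n u t = n t + if t = u then 1 else 0 := by
              intro t
              simp only [inc]
              split_ifs <;> rfl
            rw [sum_congr rfl (fun t _ => h5 t), sum_add_distrib, sum_ite_eq']
            simp
          have hs0 : ∑ t : ι, (0 : ι → ℕ) t = 0 := by simp
          have g1 : ∀ u, u ∈ T → ∀ t, inc 0 u t ≤ N t := by
            intro u hu t
            by_cases h5 : t = u
            · subst h5
              rw [inc_self, N1 _ hu]
              simp
            · rw [inc_ne 0 h5]
              exact Nat.zero_le _
          have g2 : ∀ u v, u ∈ T → v ∈ T → u ≠ v → ∀ t, inc (inc 0 u) v t ≤ N t := by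
            intro u v hu hv huv t
            by_cases h5 : t = v
            · subst h5
              rw [inc_self, inc_ne 0 huv.symm, N1 _ hv]
              simp
            · rw [inc_ne _ h5]
              exact g1 u hu t
          have v1 : ∀ u, u ∈ T → c (inc 0 u) = 1 := by
            intro u hu
            have h3 := hpos (inc 0 u) (g1 u hu) (by
                intro h5
                have := congrFun h5 u
                rw [inc_self] at this
                simp at this) (by
                intro h5
                have h6 := hsinc 0 u
                rw [h5, hsumN, hs0] at h6
                omega)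
            have h4 := (H.st 0 u (g1 u hu)).1
            rw [H.z0] at h4
            omega
          refine base4 c hij hik hil hjk hjl hkl e H.z0 H.zN (fun u hu => v1 u (memT u hu)) ?_ ?_
          · intro u v hu hv huv
            have h3 := hpos _ (g2 u v (memT u hu) (memT v hv) huv) (by
                intro h5
                have := congrFun h5 v
                rw [inc_self] at this
                simp at this) (by
                intro h5
                have h6 := hsinc (inc 0 u) v
                have h7 := hsinc 0 u
                rw [h5, hsumN, h7, hs0] at h6
                omega)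
            have h4 := (H.st (inc 0 u) v (g2 u v (memT u hu) (memT v hv) huv)).1
            rw [v1 u (memT u hu)] at h4
            exact ⟨h3, by omega⟩
          · intro u m hu hm
            have h6 := hsinc m u
            rw [hm, hsumN] at h6
            have h3 := hpos m (by rw [← hm]; exact le_inc m u) (by
                intro h5
                rw [h5, hs0] at h6
                omega) (by
                intro h5
                rw [h5, hsumN] at h6
                omega)
            have h4 := (H.st m u (by rw [hm]; exact fun t => le_rfl)).2
            rw [hm, H.zN] at h4
            omega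

end

end Pool.Agent.P901b45t
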