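import Pool.Agent.Lib.P901b45t.Seq
import Pool.Agent.Lib.P901b45e.Excess

/-!
Functions whose value on a union of two intervals depends only on the lengths, for Frank's question
on complementary vertices of integer 2-polymatroids (MP_901b45_co).
-/

set_option autoImplicit false

namespace Pool.Agent.P901b45t

open Finset Pool.Agent.P901b45e

variable {α : Type*} [DecidableEq α] {G : Finset α} {h : Finset α → ℤ}

/-- `x` is the greedy vector of an order whose prefixes build up the set -/
inductive Gr (h : Finset α → ℤ) (x : α → ℤ) : Finset α → Prop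
  | nil : Gr h x ∅
  | step (D : Finset α) (e : α) : Gr h x D → e ∉ D → x e = h (insert e D) - h D →
      Gr h x (insert e D)

theorem Gr.prop (h0 : h ∅ = 0) {x : α → ℤ} {D : Finset α} (hg : Gr h x D) :
    (∀ A ⊆ D, ∀ B ⊆ D, h (A ∪ B) + h (A ∩ B) ≤ h A + h B) →
    (∀ A ⊆ D, ∑ e ∈ A, x e ≤ h A) ∧ ∑ e ∈ D, x e = h D ∧
      ∀ i ∈ D, ∀ j ∈ D, i ≠ j → ∃ X ⊆ D, ∑ e ∈ X, x e = h X ∧
        ((i ∈ X ∧ j ∉ X) ∨ (j ∈ X ∧ i ∉ X)) := by
  induction hg with
  | nil =>
    intro _
    refine ⟨?_, by simp [h0], by simp⟩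
    intro A hA
    rw [subset_empty.1 hA]
    simp [h0]
  | step G e _ he hxe ih =>
    intro hs
    obtain ⟨h1, h2, h3⟩ := ih (fun A hA B hB => hs A (hA.trans (subset_insert _ _)) B
      (hB.trans (subset_insert _ _)))
    have hG : ∑ i ∈ insert e G, x i = h (insert e G) := by
      rw [sum_insert he, h2, hxe]
      ring
    refine ⟨?_, hG, ?_⟩
    · intro A hA
      by_cases heA : e ∈ A
      · have h4 : A.erase e ⊆ G := by
          intro i hi
          have := hA (mem_erase.1 hi).2
          exact (mem_insert.1 this).resolve_left (mem_erase.1 hi).1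
        rw [← insert_erase heA, sum_insert (notMem_erase e A), hxe]
        have h5 := h1 _ h4
        have h6 := hs (insert e (A.erase e)) (by rw [insert_erase heA]; exact hA) G
          (subset_insert _ _)
        have e1 : insert e (A.erase e) ∪ G = insert e G := by
          ext i
          simp only [mem_union, mem_insert]
          constructor
          · rintro ((rfl | h) | h)
            · exact Or.inl rfl
            · exact Or.inr (h4 h)
            · exact Or.inr h
          · rintro (rfl | h)
            · exact Or.inl (Or.inl rfl)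
            · exact Or.inr h
        have e2 : insert e (A.erase e) ∩ G = A.erase e := by
          ext i
          simp only [mem_inter, mem_insert]
          constructor
          · rintro ⟨rfl | h, h'⟩
            · exact absurd h' he
            · exact h
          · exact fun h => ⟨Or.inr h, h4 h⟩
        rw [e1, e2] at h6
        linarith
      · have h4 : A ⊆ G := fun i hi => (mem_insert.1 (hA hi)).resolve_left
          (fun h => heA (h ▸ hi))
        exact h1 A h4
    · intro i hi j hj hij
      rcases mem_insert.1 hi with hi' | hi'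
      · refine ⟨G, subset_insert _ _, h2, Or.inr ⟨?_, hi' ▸ he⟩⟩
        exact (mem_insert.1 hj).resolve_left (fun h => hij (hi'.trans h.symm))
      rcases mem_insert.1 hj with hj' | hj'
      · exact ⟨G, subset_insert _ _, h2, Or.inl ⟨hi', hj' ▸ he⟩⟩
      obtain ⟨X, hX, h4, h5⟩ := h3 i hi' j hj' hij
      exact ⟨X, hX.trans (subset_insert _ _), h4, h5⟩

/-- the image of a set of indices of the first row and a set of indices of the second row -/
def E (a b : ℕ → α) (S T : Finset ℕ) : Finset α := S.image a ∪ T.image b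

theorem E_union (a b : ℕ → α) (S T S' T' : Finset ℕ) :
    E a b S T ∪ E a b S' T' = E a b (S ∪ S') (T ∪ T') := by
  ext i
  simp only [E, mem_union, image_union]
  tauto

/-- the two rows -/
structure Rows (p r : ℕ) (a b : ℕ → α) : Prop where
  ia : ∀ i < p, ∀ j < p, a i = a j → i = j
  ib : ∀ i < r, ∀ j < r, b i = b j → i = j
  ab : ∀ i < p, ∀ j < r, a i ≠ b j

theorem Rows.inter {p r : ℕ} {a b : ℕ → α} (H : Rows p r a b) {S S' T T' : Finset ℕ}
    (hS : S ⊆ range p) (hS' : S' ⊆ range p) (hT : T ⊆ range r) (hT' : T' ⊆ range r) :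
    E a b S T ∩ E a b S' T' = E a b (S ∩ S') (T ∩ T') := by
  ext e
  simp only [E, mem_union, mem_inter, mem_image]
  constructor
  · rintro ⟨⟨i, hi, rfl⟩ | ⟨i, hi, rfl⟩, ⟨j, hj, hij⟩ | ⟨j, hj, hij⟩⟩
    · have := H.ia j (mem_range.1 (hS' hj)) i (mem_range.1 (hS hi)) hij
      subst this
      exact Or.inl ⟨j, ⟨hi, hj⟩, rfl⟩
    · exact absurd hij.symm (H.ab i (mem_range.1 (hS hi)) j (mem_range.1 (hT' hj)))
    · exact absurd hij (H.ab j (mem_range.1 (hS' hj)) i (mem_range.1 (hT hi)))
    · have := H.ib j (mem_range.1 (hT' hj)) i (mem_range.1 (hT hi)) hij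
      subst this
      exact Or.inr ⟨j, ⟨hi, hj⟩, rfl⟩
  · rintro (⟨i, ⟨h1, h2⟩, rfl⟩ | ⟨i, ⟨h1, h2⟩, rfl⟩)
    · exact ⟨Or.inl ⟨i, h1, rfl⟩, Or.inl ⟨i, h2, rfl⟩⟩
    · exact ⟨Or.inr ⟨i, h1, rfl⟩, Or.inr ⟨i, h2, rfl⟩⟩

theorem Rows.rev {p r : ℕ} {a b : ℕ → α} (H : Rows p r a b) :
    Rows p r (fun i => a (p - 1 - i)) (fun j => b (r - 1 - j)) := by
  refine ⟨?_, ?_, ?_⟩
  · intro i hi j hj hij
    have := H.ia _ (by omega) _ (by omega) hij
    omega
  · intro i hi j hj hij
    have := H.ib _ (by omega) _ (by omega) hij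
    omega
  · intro i hi j hj
    exact H.ab _ (by omega) _ (by omega)

theorem Rows.card {p r : ℕ} {a b : ℕ → α} (H : Rows p r a b) {S T : Finset ℕ}
    (hS : S ⊆ range p) (hT : T ⊆ range r) : (E a b S T).card = S.card + T.card := by
  unfold E
  rw [card_union_of_disjoint, card_image_of_injOn, card_image_of_injOn]
  · intro i hi j hj hij
    exact H.ib _ (mem_range.1 (hT hi)) _ (mem_range.1 (hT hj)) hij
  · intro i hi j hj hij
    exact H.ia _ (mem_range.1 (hS hi)) _ (mem_range.1 (hS hj)) hij
  · rw [disjoint_left]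
    intro e h1 h2
    obtain ⟨i, hi, rfl⟩ := mem_image.1 h1
    obtain ⟨j, hj, hij⟩ := mem_image.1 h2
    exact H.ab i (mem_range.1 (hS hi)) j (mem_range.1 (hT hj)) hij.symm

theorem E_succ_left (a b : ℕ → α) (i : ℕ) (T : Finset ℕ) :
    E a b (range (i + 1)) T = insert (a i) (E a b (range i) T) := by
  unfold E
  rw [range_add_one, image_insert, insert_union]

theorem E_succ_right (a b : ℕ → α) (S : Finset ℕ) (j : ℕ) :
    E a b S (range (j + 1)) = insert (b j) (E a b S (range j)) := by
  unfold E
  rw [range_add_one, image_insert, union_insert]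

theorem Rows.build {p r : ℕ} {a b : ℕ → α} (H : Rows p r a b) {c : ℕ → ℕ → ℤ}
    (hc : ∀ i ≤ p, ∀ j ≤ r, h (E a b (range i) (range j)) = c i j) {y : α → ℤ} {k l m : ℕ}
    (hkm : k ≤ m) (hmp : m ≤ p) (hl : l ≤ r)
    (ya : ∀ i < p, y (a i) = al c r k l m i) (yb : ∀ j < r, y (b j) = be c k l m j) :
    Gr h y (E a b (range p) (range r)) := by
  have stepA : ∀ i < p, ∀ j ≤ r, J r k l m i = j → Gr h y (E a b (range i) (range j)) →
      Gr h y (E a b (range (i + 1)) (range j)) := by
    intro i hi j hj hJ hg
    rw [E_succ_left]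
    refine Gr.step _ _ hg ?_ ?_
    · intro hmem
      unfold E at hmem
      rcases mem_union.1 hmem with h1 | h1
      · obtain ⟨t, ht, h2⟩ := mem_image.1 h1
        have h3 := mem_range.1 ht
        have := H.ia t (by omega) i hi h2
        omega
      · obtain ⟨t, ht, h2⟩ := mem_image.1 h1
        have h3 := mem_range.1 ht
        exact H.ab i hi t (by omega) h2.symm
    · rw [← E_succ_left, hc _ (by omega) _ hj, hc _ (by omega) _ hj, ya i hi]
      unfold al
      rw [hJ]
  have stepB : ∀ i ≤ p, ∀ j < r, K k l m j = i → Gr h y (E a b (range i) (range j)) →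
      Gr h y (E a b (range i) (range (j + 1))) := by
    intro i hi j hj hK hg
    rw [E_succ_right]
    refine Gr.step _ _ hg ?_ ?_
    · intro hmem
      unfold E at hmem
      rcases mem_union.1 hmem with h1 | h1
      · obtain ⟨t, ht, h2⟩ := mem_image.1 h1
        have h3 := mem_range.1 ht
        exact H.ab t (by omega) j hj h2
      · obtain ⟨t, ht, h2⟩ := mem_image.1 h1
        have h3 := mem_range.1 ht
        have := H.ib t (by omega) j hj h2
        omega
    · rw [← E_succ_right, hc _ hi _ (by omega), hc _ hi _ (by omega), yb j hj]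
      unfold be
      rw [hK]
  have s1 : ∀ i ≤ k, Gr h y (E a b (range i) (range 0)) := by
    intro i
    induction i with
    | zero =>
      intro _
      have : E a b (range 0) (range 0) = ∅ := by simp [E]
      rw [this]
      exact Gr.nil
    | succ i ih =>
      intro hi
      refine stepA i (by omega) 0 (by omega) ?_ (ih (by omega))
      unfold J
      rw [if_pos (by omega)]
  have s2 : ∀ j ≤ l, Gr h y (E a b (range k) (range j)) := by
    intro j
    induction j with
    | zero => intro _; exact s1 k le_rfl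
    | succ j ih =>
      intro hj
      refine stepB k (by omega) j (by omega) ?_ (ih (by omega))
      unfold K
      rw [if_pos (by omega)]
  have s3 : ∀ i, k ≤ i → i ≤ m → Gr h y (E a b (range i) (range l)) := by
    intro i hi
    induction i, hi using Nat.le_induction with
    | base => intro _; exact s2 l le_rfl
    | succ i hki ih =>
      intro hi
      refine stepA i (by omega) l hl ?_ (ih (by omega))
      unfold J
      rw [if_neg (by omega), if_pos (by omega)]
  have s4 : ∀ j, l ≤ j → j ≤ r → Gr h y (E a b (range m) (range j)) := by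
    intro j hj
    induction j, hj using Nat.le_induction with
    | base => intro _; exact s3 m hkm le_rfl
    | succ j hlj ih =>
      intro hj
      refine stepB m hmp j (by omega) ?_ (ih (by omega))
      unfold K
      rw [if_neg (by omega)]
  have s5 : ∀ i, m ≤ i → i ≤ p → Gr h y (E a b (range i) (range r)) := by
    intro i hi
    induction i, hi using Nat.le_induction with
    | base => intro _; exact s4 r hl le_rfl
    | succ i hmi ih =>
      intro hi
      refine stepA i (by omega) r le_rfl ?_ (ih (by omega))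
      unfold J
      rw [if_neg (by omega), if_neg (by omega)]
  exact s5 p hmp le_rfl

/-- `I` consists of two rows `a 0, ..., a (p-1)` and `b 0, ..., b (r-1)` such that the value of `q`
on the union of an interval of the first row and an interval of the second row depends only on
the two lengths -/
def Intervals (I : Finset α) (q : Finset α → ℤ) : Prop :=
  ∃ (p r : ℕ) (a b : ℕ → α), Rows p r a b ∧ E a b (range p) (range r) = I ∧
    ∀ i k j l, i + k ≤ p → j + l ≤ r →
      q (E a b (Ico i (i + k)) (Ico j (j + l))) = q (E a b (range k) (range l))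

theorem sol_of_intervals (hh : Sub G h) (hG : h G = 0)
    (hp : Intervals G (fun S => h S + S.card)) : ∃ x, Sol G h x := by
  obtain ⟨p, r, a, b, H, hE, hq⟩ := hp
  have hIc : ∀ i k : ℕ, ∀ n : ℕ, i + k ≤ n → Ico i (i + k) ⊆ range n := by
    intro i k n hn t ht
    have := mem_Ico.1 ht
    exact mem_range.2 (by omega)
  have hrg : ∀ {i n : ℕ}, i ≤ n → range i ⊆ range n := fun hi => range_subset_range.2 hi
  -- the values of `h` on intervals
  have hI : ∀ i k j l, i + k ≤ p → j + l ≤ r →
      h (E a b (Ico i (i + k)) (Ico j (j + l))) = h (E a b (range k) (range l)) := by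
    intro i k j l hi hj
    have h1 : h (E a b (Ico i (i + k)) (Ico j (j + l))) +
        ((E a b (Ico i (i + k)) (Ico j (j + l))).card : ℤ) =
        h (E a b (range k) (range l)) + ((E a b (range k) (range l)).card : ℤ) := hq i k j l hi hj
    rw [H.card (hIc i k p hi) (hIc j l r hj), H.card (hrg (by omega)) (hrg (by omega))] at h1
    simp only [Nat.card_Ico, card_range, add_tsub_cancel_left] at h1
    linarith
  have hsubG : ∀ {S T : Finset ℕ}, S ⊆ range p → T ⊆ range r → E a b S T ⊆ G := by
    intro S T hS hT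
    rw [← hE]
    unfold E
    exact union_subset_union (image_subset_image hS) (image_subset_image hT)
  set c : ℕ → ℕ → ℤ := fun i j => h (E a b (range i) (range j)) with hcdef
  have hsub2 : ∀ {S S' T T' : Finset ℕ}, S ⊆ range p → S' ⊆ range p → T ⊆ range r →
      T' ⊆ range r → h (E a b (S ∪ S') (T ∪ T')) + h (E a b (S ∩ S') (T ∩ T')) ≤
        h (E a b S T) + h (E a b S' T') := by
    intro S S' T T' hS hS' hT hT'
    have h1 := hh.sub _ (hsubG hS hT) _ (hsubG hS' hT')
    rw [E_union, H.inter hS hS' hT hT'] at h1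
    exact h1
  have c00 : c 0 0 = 0 := by
    show h (E a b (range 0) (range 0)) = 0
    have : E a b (range 0) (range 0) = ∅ := by simp [E]
    rw [this, hh.empty]
  have cpr : c p r = 0 := by
    show h (E a b (range p) (range r)) = 0
    rw [hE, hG]
  have nn1 : 0 ≤ c 0 r := hh.nonneg _ (hsubG (hrg (by omega)) (hrg le_rfl))
  have nn2 : 0 ≤ c p 0 := hh.nonneg _ (hsubG (hrg le_rfl) (hrg (by omega)))
  have u1 : ∀ i : ℕ, range (i + 1) ∪ Ico 1 (1 + (i + 1)) = range (i + 2) := by
    intro i
    ext t
    simp only [mem_union, mem_range, mem_Ico]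
    omega
  have u2 : ∀ i : ℕ, range (i + 1) ∩ Ico 1 (1 + (i + 1)) = Ico 1 (1 + i) := by
    intro i
    ext t
    simp only [mem_inter, mem_range, mem_Ico]
    omega
  have u3 : ∀ j : ℕ, (Ico 0 (0 + j)) = range j := by
    intro j
    ext t
    simp only [mem_range, mem_Ico]
    omega
  have ca : ∀ i j, i + 2 ≤ p → j ≤ r → c (i + 2) j + c i j ≤ c (i + 1) j + c (i + 1) j := by
    intro i j hi hj
    have h1 := hsub2 (hrg (by omega : i + 1 ≤ p)) (hIc 1 (i + 1) p (by omega)) (hrg hj) (hrg hj)
    rw [u1, u2, union_self, inter_self] at h1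
    have h2 := hI 1 (i + 1) 0 j (by omega) (by omega)
    have h3 := hI 1 i 0 j (by omega) (by omega)
    rw [u3] at h2 h3
    rw [h2, h3] at h1
    exact h1
  have cb : ∀ i j, i ≤ p → j + 2 ≤ r → c i (j + 2) + c i j ≤ c i (j + 1) + c i (j + 1) := by
    intro i j hi hj
    have h1 := hsub2 (hrg hi) (hrg hi) (hrg (by omega : j + 1 ≤ r)) (hIc 1 (j + 1) r (by omega))
    rw [u1, u2, union_self, inter_self] at h1
    have h2 := hI 0 i 1 (j + 1) (by omega) (by omega)
    have h3 := hI 0 i 1 j (by omega) (by omega)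
    rw [u3] at h2 h3
    rw [h2, h3] at h1
    exact h1
  have cr : ∀ i j, i < p → j < r → c (i + 1) (j + 1) + c i j ≤ c (i + 1) j + c i (j + 1) := by
    intro i j hi hj
    have h1 := hsub2 (hrg (by omega : i + 1 ≤ p)) (hrg hi.le) (hrg hj.le)
      (hrg (by omega : j + 1 ≤ r))
    rw [union_eq_left.2 (hrg (by omega : i ≤ i + 1)), union_eq_right.2 (hrg (by omega : j ≤ j + 1)),
      inter_eq_right.2 (hrg (by omega : i ≤ i + 1)), inter_eq_left.2 (hrg (by omega : j ≤ j + 1))]
      at h1
    exact h1
  have haG : ∀ i < p, a i ∈ G := by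
    intro i hi
    rw [← hE]
    exact mem_union_left _ (mem_image_of_mem _ (mem_range.2 hi))
  have hbG : ∀ j < r, b j ∈ G := by
    intro j hj
    rw [← hE]
    exact mem_union_right _ (mem_image_of_mem _ (mem_range.2 hj))
  have ba : ∀ i j, i < p → j ≤ r → c (i + 1) j ≤ c i j + 1 ∧ c i j ≤ c (i + 1) j + 1 := by
    intro i j hi hj
    have h1 := hh.up _ (hsubG (hrg hi.le) (hrg hj)) (a i) (haG i hi)
    have h2 := hh.down _ (hsubG (hrg hi.le) (hrg hj)) (a i) (haG i hi)
    rw [← E_succ_left] at h1 h2
    exact ⟨h1, h2⟩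
  have bb : ∀ i j, i ≤ p → j < r → c i (j + 1) ≤ c i j + 1 ∧ c i j ≤ c i (j + 1) + 1 := by
    intro i j hi hj
    have h1 := hh.up _ (hsubG (hrg hi) (hrg hj.le)) (b j) (hbG j hj)
    have h2 := hh.down _ (hsubG (hrg hi) (hrg hj.le)) (b j) (hbG j hj)
    rw [← E_succ_right] at h1 h2
    exact ⟨h1, h2⟩
  obtain ⟨k, l, m, k', l', m', hkm, hmp, hl, hkm', hmp', hl', ra, rb⟩ :=
    core c00 cpr nn1 nn2 ca cb cr ba bb
  -- the vector
  classical
  set x : α → ℤ := fun e => if h1 : ∃ i, i < p ∧ a i = e then al c r k l m h1.choose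
    else if h2 : ∃ j, j < r ∧ b j = e then be c k l m h2.choose else 0 with hx
  have xa : ∀ i < p, x (a i) = al c r k l m i := by
    intro i hi
    have h1 : ∃ t, t < p ∧ a t = a i := ⟨i, hi, rfl⟩
    have h2 : x (a i) = al c r k l m h1.choose := by
      simp only [hx]
      rw [dif_pos h1]
    rw [h2, H.ia _ h1.choose_spec.1 i hi h1.choose_spec.2]
  have xb : ∀ j < r, x (b j) = be c k l m j := by
    intro j hj
    have h0 : ¬ ∃ t, t < p ∧ a t = b j := by
      rintro ⟨t, ht, h1⟩
      exact H.ab t ht j hj h1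
    have h1 : ∃ t, t < r ∧ b t = b j := ⟨j, hj, rfl⟩
    have h2 : x (b j) = be c k l m h1.choose := by
      simp only [hx]
      rw [dif_neg h0, dif_pos h1]
    rw [h2, H.ib _ h1.choose_spec.1 j hj h1.choose_spec.2]
  have g1 : Gr h x G := by
    rw [← hE]
    exact H.build (fun i _ j _ => rfl) hkm hmp hl xa xb
  -- the reversed rows
  have hrevE : ∀ i ≤ p, ∀ j ≤ r,
      E (fun i => a (p - 1 - i)) (fun j => b (r - 1 - j)) (range i) (range j) =
        E a b (Ico (p - i) (p - i + i)) (Ico (r - j) (r - j + j)) := by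
    intro i hi j hj
    unfold E
    congr 1
    · ext e
      simp only [mem_image, mem_range, mem_Ico]
      constructor
      · rintro ⟨t, ht, rfl⟩
        exact ⟨p - 1 - t, by omega, rfl⟩
      · rintro ⟨t, ht, rfl⟩
        refine ⟨p - 1 - t, by omega, ?_⟩
        have : p - 1 - (p - 1 - t) = t := by omega
        rw [this]
    · ext e
      simp only [mem_image, mem_range, mem_Ico]
      constructor
      · rintro ⟨t, ht, rfl⟩
        exact ⟨r - 1 - t, by omega, rfl⟩
      · rintro ⟨t, ht, rfl⟩
        refine ⟨r - 1 - t, by omega, ?_⟩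
        have : r - 1 - (r - 1 - t) = t := by omega
        rw [this]
  have hGrev : E (fun i => a (p - 1 - i)) (fun j => b (r - 1 - j)) (range p) (range r) = G := by
    rw [hrevE p le_rfl r le_rfl, ← hE]
    congr 1
    · ext t
      simp only [mem_Ico, mem_range]
      omega
    · ext t
      simp only [mem_Ico, mem_range]
      omega
  have g2 : Gr h (fun e => -x e) G := by
    rw [← hGrev]
    refine H.rev.build (c := c) ?_ hkm' hmp' hl' ?_ ?_
    · intro i hi j hj
      rw [hrevE i hi j hj, hI _ _ _ _ (by omega) (by omega)]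
    · intro i hi
      show -x (a (p - 1 - i)) = _
      rw [xa _ (by omega), ra i hi, neg_neg]
    · intro j hj
      show -x (b (r - 1 - j)) = _
      rw [xb _ (by omega), rb j hj, neg_neg]
  obtain ⟨p1, p2, p3⟩ := g1.prop hh.empty hh.sub
  obtain ⟨q1, -, -⟩ := g2.prop hh.empty hh.sub
  refine ⟨x, p1, ?_, p2, p3⟩
  intro A hA
  have := q1 A hA
  rw [sum_neg_distrib] at this
  exact this

theorem Intervals.congr {I : Finset α} {g g' : Finset α → ℤ} (hg : ∀ S ⊆ I, g S = g' S)
    (h : Intervals I g) : Intervals I g' := by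
  obtain ⟨p, r, a, b, H, hE, hq⟩ := h
  have hsub : ∀ {S T : Finset ℕ}, S ⊆ range p → T ⊆ range r → E a b S T ⊆ I := by
    intro S T hS hT
    rw [← hE]
    unfold E
    exact union_subset_union (image_subset_image hS) (image_subset_image hT)
  refine ⟨p, r, a, b, H, hE, fun i k j l hi hj => ?_⟩
  rw [← hg _ (hsub (fun t ht => ?_) (fun t ht => ?_)), ← hg _ (hsub (fun t ht => ?_) (fun t ht => ?_))]
  · exact hq i k j l hi hj
  · have := mem_range.1 ht
    exact mem_range.2 (by omega)
  · have := mem_range.1 ht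
    exact mem_range.2 (by omega)
  · have := mem_Ico.1 ht
    exact mem_range.2 (by omega)
  · have := mem_Ico.1 ht
    exact mem_range.2 (by omega)

end Pool.Agent.P901b45t
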