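import Pool.Agent.Lib.P901b45t.Grid
import Pool.Agent.Lib.P901b45t.Rot

/-!
Functions whose value on a union of intervals of rows depends only on the lengths of the intervals,
for Frank's question on complementary vertices of integer 2-polymatroids (MP_901b45_co).
-/

set_option autoImplicit false

namespace Pool.Agent.P901b45t

open Finset Pool.Agent.P901b45e

section

variable {ι : Type} [DecidableEq ι] [Fintype ι] {α : Type*} [DecidableEq α]

/-- the set of the entries of the rows `a` whose places are in the sets `S` -/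
def part (a : ι → ℕ → α) (S : ι → Finset ℕ) : Finset α :=
  univ.biUnion (fun t => (S t).image (a t))

theorem mem_part {a : ι → ℕ → α} {S : ι → Finset ℕ} {e : α} :
    e ∈ part a S ↔ ∃ t k, k ∈ S t ∧ a t k = e := by
  simp only [part, mem_biUnion, mem_univ, true_and, mem_image]

theorem part_union (a : ι → ℕ → α) (S S' : ι → Finset ℕ) :
    part a S ∪ part a S' = part a (fun t => S t ∪ S' t) := by
  ext e
  simp only [mem_union, mem_part]
  constructor
  · rintro (⟨t, k, h1, h2⟩ | ⟨t, k, h1, h2⟩)
    · exact ⟨t, k, Or.inl h1, h2⟩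
    · exact ⟨t, k, Or.inr h1, h2⟩
  · rintro ⟨t, k, h1 | h1, h2⟩
    · exact Or.inl ⟨t, k, h1, h2⟩
    · exact Or.inr ⟨t, k, h1, h2⟩

/-- the entries of the rows are different -/
def Inj (N : ι → ℕ) (a : ι → ℕ → α) : Prop :=
  ∀ t k t' k', k < N t → k' < N t' → a t k = a t' k' → t = t' ∧ k = k'

theorem part_inter {N : ι → ℕ} {a : ι → ℕ → α} (H : Inj N a) {S S' : ι → Finset ℕ}
    (hS : ∀ t, ∀ k ∈ S t, k < N t) (hS' : ∀ t, ∀ k ∈ S' t, k < N t) :
    part a S ∩ part a S' = part a (fun t => S t ∩ S' t) := by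
  ext e
  simp only [mem_inter, mem_part]
  constructor
  · rintro ⟨⟨t, k, h1, h2⟩, ⟨t', k', h1', h2'⟩⟩
    obtain ⟨e1, e2⟩ := H t k t' k' (hS t k h1) (hS' t' k' h1') (h2.trans h2'.symm)
    subst e1
    subst e2
    exact ⟨t, k, ⟨h1, h1'⟩, h2⟩
  · rintro ⟨t, k, ⟨h1, h1'⟩, h2⟩
    exact ⟨⟨t, k, h1, h2⟩, ⟨t, k, h1', h2⟩⟩

theorem part_card {N : ι → ℕ} {a : ι → ℕ → α} (H : Inj N a) {S : ι → Finset ℕ}
    (hS : ∀ t, ∀ k ∈ S t, k < N t) : (part a S).card = ∑ t, (S t).card := by
  unfold part
  rw [card_biUnion]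
  · apply sum_congr rfl
    intro t _
    rw [card_image_of_injOn]
    intro k hk k' hk' hkk
    exact (H t k t k' (hS t k hk) (hS t k' hk') hkk).2
  · intro t _ t' _ htt
    show Disjoint ((S t).image (a t)) ((S t').image (a t'))
    rw [disjoint_left]
    intro e h1 h2
    obtain ⟨k, hk, rfl⟩ := mem_image.1 h1
    obtain ⟨k', hk', h3⟩ := mem_image.1 h2
    exact htt (H t k t' k' (hS t k hk) (hS t' k' hk') h3.symm).1

theorem part_inc (a : ι → ℕ → α) (n : ι → ℕ) (i : ι) :
    part a (fun t => range (inc n i t)) = insert (a i (n i)) (part a (fun t => range (n t))) := by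
  ext e
  simp only [mem_insert, mem_part, mem_range]
  constructor
  · rintro ⟨t, k, h1, rfl⟩
    by_cases h2 : t = i
    · subst h2
      rw [inc_self] at h1
      by_cases h3 : k = n t
      · left; rw [h3]
      · exact Or.inr ⟨t, k, by omega, rfl⟩
    · rw [inc_ne n h2] at h1
      exact Or.inr ⟨t, k, h1, rfl⟩
  · rintro (rfl | ⟨t, k, h1, rfl⟩)
    · exact ⟨i, n i, by rw [inc_self]; omega, rfl⟩
    · exact ⟨t, k, lt_of_lt_of_le h1 (le_inc n i t), rfl⟩

theorem build {h : Finset α → ℤ} {N : ι → ℕ} {a : ι → ℕ → α} (H : Inj N a) {c : (ι → ℕ) → ℤ}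
    (hc : ∀ n : ι → ℕ, (∀ t, n t ≤ N t) → h (part a (fun t => range (n t))) = c n)
    {x : ι → ℕ → ℤ} {y : α → ℤ} (hy : ∀ t k, k < N t → y (a t k) = x t k) {n : ι → ℕ}
    (hp : Path c x n) : (∀ t, n t ≤ N t) → Gr h y (part a (fun t => range (n t))) := by
  induction hp with
  | nil =>
    intro _
    have e : part a (fun t => range ((0 : ι → ℕ) t)) = ∅ := by
      ext e
      simp [mem_part]
    rw [e]
    exact Gr.nil
  | step n i _ hx ih =>
    intro hle
    have hle' : ∀ t, n t ≤ N t := fun t => (le_inc n i t).trans (hle t)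
    have hi : n i < N i := by
      have := hle i
      rw [inc_self] at this
      omega
    rw [part_inc]
    refine Gr.step _ _ (ih hle') ?_ ?_
    · intro hmem
      obtain ⟨t, k, h1, h2⟩ := mem_part.1 hmem
      have h3 := mem_range.1 h1
      obtain ⟨e1, e2⟩ := H t k i (n i) (lt_of_lt_of_le h3 (hle' t)) hi h2
      subst e1
      omega
    · rw [← part_inc, hc _ hle, hc _ hle', hy i (n i) hi, hx]

theorem sol_of_inj {G : Finset α} {h : Finset α → ℤ} (hh : Sub G h) (hG : h G = 0) {N : ι → ℕ}
    {a : ι → ℕ → α} (H : Inj N a) (hE : part a (fun t => range (N t)) = G)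
    (hodd : (univ.filter (fun t => N t % 2 = 1)).card ≤ 4)
    (hI : ∀ s n : ι → ℕ, (∀ t, s t + n t ≤ N t) →
      h (part a (fun t => Ico (s t) (s t + n t))) = h (part a (fun t => range (n t)))) :
    ∃ x, Sol G h x := by
  have hsubG : ∀ {S : ι → Finset ℕ}, (∀ t, ∀ k ∈ S t, k < N t) → part a S ⊆ G := by
    intro S hS e he
    rw [← hE]
    obtain ⟨t, k, h1, h2⟩ := mem_part.1 he
    exact mem_part.2 ⟨t, k, mem_range.2 (hS t k h1), h2⟩
  have hrg : ∀ {n : ι → ℕ}, (∀ t, n t ≤ N t) → ∀ t, ∀ k ∈ range (n t), k < N t :=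
    fun hn t k hk => lt_of_lt_of_le (mem_range.1 hk) (hn t)
  have hIc : ∀ {s n : ι → ℕ}, (∀ t, s t + n t ≤ N t) → ∀ t, ∀ k ∈ Ico (s t) (s t + n t),
      k < N t := fun hn t k hk => lt_of_lt_of_le (mem_Ico.1 hk).2 (hn t)
  set c : (ι → ℕ) → ℤ := fun n => h (part a (fun t => range (n t))) with hcdef
  have HH : Hyp c N := by
    refine ⟨?_, ?_, ?_, ?_, ?_⟩
    · have e : part a (fun t => range ((0 : ι → ℕ) t)) = ∅ := by
        ext e
        simp [mem_part]
      show h (part a (fun t => range ((0 : ι → ℕ) t))) = 0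
      rw [e, hh.empty]
    · show h (part a (fun t => range (N t))) = 0
      rw [hE, hG]
    · intro n hn
      exact hh.nonneg _ (hsubG (hrg hn))
    · intro n i hn
      have hn' : ∀ t, n t ≤ N t := fun t => (le_inc n i t).trans (hn t)
      have hi : n i < N i := by
        have := hn i
        rw [inc_self] at this
        omega
      have haG : a i (n i) ∈ G := by
        rw [← hE]
        exact mem_part.2 ⟨i, n i, mem_range.2 hi, rfl⟩
      have h1 := hh.up _ (hsubG (hrg hn')) _ haG
      have h2 := hh.down _ (hsubG (hrg hn')) _ haG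
      rw [← part_inc] at h1 h2
      exact ⟨h1, h2⟩
    · intro n i hn
      have hn1 : ∀ t, inc n i t ≤ N t := fun t => (le_inc _ i t).trans (hn t)
      have hn0 : ∀ t, n t ≤ N t := fun t => (le_inc _ i t).trans (hn1 t)
      set s : ι → ℕ := fun t => if t = i then 1 else 0 with hs
      have hs1 : ∀ t, s t + inc n i t ≤ N t := by
        intro t
        have h1 := hn t
        simp only [hs, inc] at h1 ⊢
        split_ifs at h1 ⊢ <;> omega
      have hs0 : ∀ t, s t + n t ≤ N t := fun t =>
        (Nat.add_le_add_left (le_inc n i t) _).trans (hs1 t)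
      have h1 := hh.sub _ (hsubG (hrg hn1)) _ (hsubG (hIc hs1))
      rw [part_union, part_inter H (hrg hn1) (hIc hs1), hI s _ hs1] at h1
      have e1 : (fun t => range (inc n i t) ∪ Ico (s t) (s t + inc n i t)) =
          fun t => range (inc (inc n i) i t) := by
        funext t
        ext u
        simp only [mem_union, mem_range, mem_Ico, hs, inc]
        split_ifs <;> omega
      have e2 : (fun t => range (inc n i t) ∩ Ico (s t) (s t + inc n i t)) =
          fun t => Ico (s t) (s t + n t) := by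
        funext t
        ext u
        simp only [mem_inter, mem_range, mem_Ico, hs, inc]
        split_ifs <;> omega
      rw [e1, e2, hI s n hs0] at h1
      exact h1
  obtain ⟨x, x', p1, p2, p3⟩ := dbl _ N c rfl hodd HH
  classical
  set y : α → ℤ := fun e => if h1 : ∃ p : ι × ℕ, p.2 < N p.1 ∧ a p.1 p.2 = e then
    x h1.choose.1 h1.choose.2 else 0 with hy
  have ya : ∀ t k, k < N t → y (a t k) = x t k := by
    intro t k hk
    have h1 : ∃ p : ι × ℕ, p.2 < N p.1 ∧ a p.1 p.2 = a t k := ⟨(t, k), hk, rfl⟩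
    have h2 : y (a t k) = x h1.choose.1 h1.choose.2 := by
      simp only [hy]
      rw [dif_pos h1]
    obtain ⟨e1, e2⟩ := H _ _ t k h1.choose_spec.1 hk h1.choose_spec.2
    rw [h2, e1, e2]
  have g1 : Gr h y G := by
    rw [← hE]
    exact build H (fun n _ => rfl) ya p1 (fun t => le_rfl)
  -- the reversed rows
  have hrev : ∀ n : ι → ℕ, (∀ t, n t ≤ N t) →
      part (fun t k => a t (N t - 1 - k)) (fun t => range (n t)) =
        part a (fun t => Ico (N t - n t) (N t - n t + n t)) := by
    intro n hn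
    ext e
    simp only [mem_part, mem_range, mem_Ico]
    constructor
    · rintro ⟨t, k, h1, h2⟩
      have := hn t
      exact ⟨t, N t - 1 - k, by omega, h2⟩
    · rintro ⟨t, k, h1, h2⟩
      have h3 := hn t
      refine ⟨t, N t - 1 - k, by omega, ?_⟩
      have e1 : N t - 1 - (N t - 1 - k) = k := by omega
      rw [e1]
      exact h2
  have Hrev : Inj N (fun t k => a t (N t - 1 - k)) := by
    intro t k t' k' h1 h2 h3
    obtain ⟨e1, e2⟩ := H _ _ _ _ (by omega) (by omega) h3
    subst e1
    exact ⟨rfl, by omega⟩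
  have g2 : Gr h (fun e => -y e) G := by
    have h1 := build (h := h) (y := fun e => -y e) (x := x') (c := c) Hrev ?_ ?_ p2
      (fun t => le_rfl)
    · rw [hrev N (fun t => le_rfl)] at h1
      have e : (fun t => Ico (N t - N t) (N t - N t + N t)) = fun t => range (N t) := by
        funext t
        ext u
        simp only [mem_Ico, mem_range]
        omega
      rw [e, hE] at h1
      exact h1
    · intro n hn
      rw [hrev n hn]
      exact hI (fun t => N t - n t) n (fun t => by have := hn t; omega)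
    · intro t k hk
      show -y (a t (N t - 1 - k)) = x' t k
      rw [ya _ _ (by omega), p3 t k hk]
  obtain ⟨r1, r2, r3⟩ := g1.prop hh.empty hh.sub
  obtain ⟨q1, -, -⟩ := g2.prop hh.empty hh.sub
  refine ⟨y, r1, ?_, r2, r3⟩
  intro A hA
  have := q1 A hA
  rw [sum_neg_distrib] at this
  exact this

end

section

variable {α : Type*} [DecidableEq α] {G : Finset α} {h : Finset α → ℤ}

/-- `I` is the disjoint union of finitely many rows `a t 0, ..., a t (N t - 1)`, at most four of
them of odd length, such that the value of `q` on a union of intervals of the rows, one (maybe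
empty) interval of each row, depends only on the lengths of these intervals -/
def ManyRows (I : Finset α) (q : Finset α → ℤ) : Prop :=
  ∃ (m : ℕ) (N : Fin m → ℕ) (a : Fin m → ℕ → α), Inj N a ∧
    part a (fun t => range (N t)) = I ∧
    (univ.filter (fun t => N t % 2 = 1)).card ≤ 4 ∧
    ∀ s n : Fin m → ℕ, (∀ t, s t + n t ≤ N t) →
      q (part a (fun t => Ico (s t) (s t + n t))) = q (part a (fun t => range (n t)))

theorem sol_of_manyRows (hh : Sub G h) (hG : h G = 0)
    (hp : ManyRows G (fun S => h S + S.card)) : ∃ x, Sol G h x := by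
  obtain ⟨m, N, a, H, hE, hodd, hq⟩ := hp
  refine sol_of_inj hh hG H hE hodd ?_
  intro s n hn
  have h1 : h (part a (fun t => Ico (s t) (s t + n t))) +
      ((part a (fun t => Ico (s t) (s t + n t))).card : ℤ) =
      h (part a (fun t => range (n t))) + ((part a (fun t => range (n t))).card : ℤ) := hq s n hn
  rw [part_card H (fun t k hk => lt_of_lt_of_le (mem_Ico.1 hk).2 (hn t)),
    part_card H (fun t k hk => lt_of_lt_of_le (mem_range.1 hk)
      ((Nat.le_add_left _ _).trans (hn t)))] at h1
  simp only [Nat.card_Ico, card_range, add_tsub_cancel_left] at h1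
  linarith

theorem ManyRows.congr {I : Finset α} {g g' : Finset α → ℤ} (hg : ∀ S ⊆ I, g S = g' S)
    (h : ManyRows I g) : ManyRows I g' := by
  obtain ⟨m, N, a, H, hE, hodd, hq⟩ := h
  have hsub : ∀ {S : Fin m → Finset ℕ}, (∀ t, ∀ k ∈ S t, k < N t) → part a S ⊆ I := by
    intro S hS e he
    rw [← hE]
    obtain ⟨t, k, h1, h2⟩ := mem_part.1 he
    exact mem_part.2 ⟨t, k, mem_range.2 (hS t k h1), h2⟩
  refine ⟨m, N, a, H, hE, hodd, fun s n hn => ?_⟩
  rw [← hg _ (hsub (fun t k hk => lt_of_lt_of_le (mem_range.1 hk)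
      ((Nat.le_add_left _ _).trans (hn t)))),
    ← hg _ (hsub (fun t k hk => lt_of_lt_of_le (mem_Ico.1 hk).2 (hn t)))]
  exact hq s n hn

end

end Pool.Agent.P901b45t
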