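import Mathlib

/-!
Monotone lattice paths for a function on a grid (MP_901b45_co).
-/

set_option autoImplicit false

namespace Pool.Agent.P901b45t

open Finset

theorem pal {f : ℕ → ℤ} {n : ℕ} (anti : ∀ i j, i ≤ j → j < n → f j ≤ f i)
    (lo : ∀ i, i < n → -1 ≤ f i) (hi : ∀ i, i < n → f i ≤ 1)
    (hs : ∑ i ∈ range n, f i = 0) : ∀ i, i < n → f (n - 1 - i) = - f i := by
  have hrefl : ∑ i ∈ range n, f (n - 1 - i) = ∑ i ∈ range n, f i := sum_range_reflect f n
  have h2 : ∑ i ∈ range n, (f i + f (n - 1 - i)) = 0 := by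
    rw [sum_add_distrib, hrefl, hs]; rfl
  -- positive case
  have pos : ∀ i, i < n → i ≤ n - 1 - i → ¬ (0 < f i + f (n - 1 - i)) := by
    intro i hi1 hi2 hc
    have a1 := hi i hi1
    have a2 := anti i (n - 1 - i) hi2 (by omega)
    have a3 : f i = 1 := by omega
    have a4 : 0 ≤ f (n - 1 - i) := by omega
    have hnn : ∀ j ∈ range n, 0 ≤ f j + f (n - 1 - j) := by
      intro j hj
      have hj' := mem_range.1 hj
      have b1 := lo j hj'
      have b2 := lo (n - 1 - j) (by omega)
      by_cases c1 : j ≤ i
      · have := anti j i c1 hi1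
        omega
      by_cases c2 : n - 1 - j ≤ i
      · have := anti (n - 1 - j) i c2 hi1
        omega
      have b3 := anti j (n - 1 - i) (by omega) (by omega)
      have b4 := anti (n - 1 - j) (n - 1 - i) (by omega) (by omega)
      omega
    have := single_le_sum hnn (mem_range.2 hi1)
    rw [h2] at this
    omega
  have neg : ∀ i, i < n → i ≤ n - 1 - i → ¬ (f i + f (n - 1 - i) < 0) := by
    intro i hi1 hi2 hc
    have a1 := lo (n - 1 - i) (by omega)
    have a2 := anti i (n - 1 - i) hi2 (by omega)
    have a3 : f (n - 1 - i) = -1 := by omega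
    have a4 : f i ≤ 0 := by omega
    have hnn : ∀ j ∈ range n, 0 ≤ -(f j + f (n - 1 - j)) := by
      intro j hj
      have hj' := mem_range.1 hj
      have b1 := hi j hj'
      have b2 := hi (n - 1 - j) (by omega)
      by_cases c1 : n - 1 - i ≤ j
      · have := anti (n - 1 - i) j c1 hj'
        omega
      by_cases c2 : n - 1 - i ≤ n - 1 - j
      · have := anti (n - 1 - i) (n - 1 - j) c2 (by omega)
        omega
      have b3 := anti i j (by omega) (by omega)
      have b4 := anti i (n - 1 - j) (by omega) (by omega)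
      omega
    have h3 := single_le_sum hnn (mem_range.2 hi1)
    rw [sum_neg_distrib, h2] at h3
    omega
  intro i hi1
  rcases le_total i (n - 1 - i) with h | h
  · have := pos i hi1 h
    have := neg i hi1 h
    omega
  · have e1 : n - 1 - (n - 1 - i) = i := by omega
    have a := pos (n - 1 - i) (by omega) (by omega)
    have b := neg (n - 1 - i) (by omega) (by omega)
    rw [e1] at a b
    omega

theorem pal2 {f g : ℕ → ℤ} {n k : ℕ} (hk : k < n) (af : ∀ i j, i ≤ j → j < n → f j ≤ f i)
    (ag : ∀ i j, i ≤ j → j < n → g j ≤ g i)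
    (lo : ∀ i, i < n → -1 ≤ f i) (hi : ∀ i, i < n → f i ≤ 1)
    (he : ∀ i, i ≠ k → f i = g i) (fk : f k = 1) (gk : g k = -1)
    (hs : ∑ i ∈ range n, f i = 1) : ∀ i, i < n → f (n - 1 - i) = - g i := by
  set u : ℕ → ℤ := fun i => if i = k then 0 else f i with hu
  have uk : u k = 0 := by simp [hu]
  have ue : ∀ i, i ≠ k → u i = f i := fun i h => by simp [hu, h]
  have hlt : ∀ i, i < k → 1 ≤ f i := fun i h => by
    have := af i k h.le hk
    omega
  have hgt : ∀ i, k < i → i < n → f i ≤ -1 := fun i h h' => by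
    have := ag k i h.le h'
    rw [he i (by omega)]
    omega
  have hsu : ∑ i ∈ range n, u i = 0 := by
    have h1 : ∑ i ∈ range n, (f i - u i) = 1 := by
      rw [sum_eq_single k]
      · rw [fk, uk]; rfl
      · intro b _ hb
        rw [ue b hb]; ring
      · intro h
        exact absurd (mem_range.2 hk) h
    rw [sum_sub_distrib, hs] at h1
    linarith
  have hp := pal (f := u) (n := n) (by
    intro i j hij hj
    by_cases c1 : i = k
    · by_cases c2 : j = k
      · rw [c1, c2]
      · rw [c1, uk, ue j c2]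
        have := hgt j (by omega) hj
        omega
    · by_cases c2 : j = k
      · rw [c2, uk, ue i c1]
        have := hlt i (by omega)
        omega
      · rw [ue i c1, ue j c2]
        exact af i j hij hj) (by
    intro i hi1
    by_cases c1 : i = k
    · rw [c1, uk]; norm_num
    · rw [ue i c1]; exact lo i hi1) (by
    intro i hi1
    by_cases c1 : i = k
    · rw [c1, uk]; norm_num
    · rw [ue i c1]; exact hi i hi1) hsu
  have hmid : n - 1 - k = k := by
    by_contra hne
    have h1 := hp k hk
    rw [uk, ue _ hne] at h1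
    rcases lt_or_gt_of_ne hne with h | h
    · have := hlt _ h
      omega
    · have := hgt _ h (by omega)
      omega
  intro i hi1
  by_cases c1 : i = k
  · rw [c1, hmid, fk, gk]; rfl
  · have h1 := hp i hi1
    rw [ue i c1, ue (n - 1 - i) (by omega)] at h1
    rw [h1, he i c1]

theorem ivt {P : ℕ → ℤ} : ∀ n : ℕ, P 0 < 0 → 0 < P n → (∀ k ≤ n, P k ≠ 0) →
    ∃ k < n, P k < 0 ∧ 0 < P (k + 1) := by
  intro n
  induction n with
  | zero => intro h1 h2 _; omega
  | succ n ih =>
    intro h1 h2 h3
    by_cases h4 : P n < 0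
    · exact ⟨n, by omega, h4, h2⟩
    · have h5 := h3 n (by omega)
      obtain ⟨k, hk, h6⟩ := ih h1 (by omega) (fun k hk => h3 k (by omega))
      exact ⟨k, by omega, h6⟩

/-- the level of the path at step `i` of the first direction -/
def J (r k l m i : ℕ) : ℕ := if i < k then 0 else if i < m then l else r

/-- the level of the path at step `j` of the second direction -/
def K (k l m j : ℕ) : ℕ := if j < l then k else m

def al (c : ℕ → ℕ → ℤ) (r k l m i : ℕ) : ℤ := c (i + 1) (J r k l m i) - c i (J r k l m i)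

def be (c : ℕ → ℕ → ℤ) (k l m j : ℕ) : ℤ := c (K k l m j) (j + 1) - c (K k l m j) j

theorem sum_al (c : ℕ → ℕ → ℤ) {p r k l m : ℕ} (hkm : k ≤ m) (hmp : m ≤ p) :
    ∑ i ∈ range p, al c r k l m i =
      c k 0 - c 0 0 + (c m l - c k l) + (c p r - c m r) := by
  set F : ℕ → ℤ := fun i => if i ≤ k then c i 0 else if i ≤ m then c i l - c k l + c k 0 else
    c i r - c m r + (c m l - c k l) + c k 0 with hF
  have h1 : ∀ i ∈ range p, al c r k l m i = F (i + 1) - F i := by
    intro i _
    simp only [al, J, hF]
    by_cases c1 : i < k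
    · rw [if_pos c1, if_pos (by omega), if_pos (by omega)]
    · rw [if_neg c1]
      by_cases c2 : i < m
      · rw [if_pos c2, if_neg (by omega), if_pos (by omega)]
        by_cases c3 : i ≤ k
        · have : i = k := by omega
          subst this
          rw [if_pos le_rfl]; ring
        · rw [if_neg c3, if_pos (by omega)]; ring
      · rw [if_neg c2, if_neg (by omega), if_neg (by omega)]
        by_cases c3 : i ≤ k
        · have e1 : i = k := by omega
          have e2 : m = k := by omega
          subst e1; subst e2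
          rw [if_pos le_rfl]; ring
        · rw [if_neg c3]
          by_cases c4 : i ≤ m
          · have e2 : i = m := by omega
            subst e2
            rw [if_pos le_rfl]; ring
          · rw [if_neg c4]; ring
  rw [sum_congr rfl h1, sum_range_sub]
  simp only [hF]
  rw [if_pos (Nat.zero_le k)]
  by_cases c1 : p ≤ k
  · have e1 : p = k := by omega
    have e2 : m = k := by omega
    subst e1; subst e2
    rw [if_pos le_rfl]; ring
  · rw [if_neg c1]
    by_cases c2 : p ≤ m
    · have e2 : p = m := by omega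
      subst e2
      rw [if_pos le_rfl]; ring
    · rw [if_neg c2]; ring

theorem sum_be (c : ℕ → ℕ → ℤ) {r k l m : ℕ} (hl : l ≤ r) :
    ∑ j ∈ range r, be c k l m j = (c k l - c k 0) + (c m r - c m l) := by
  set F : ℕ → ℤ := fun j => if j ≤ l then c k j else c m j - c m l + c k l with hF
  have h1 : ∀ j ∈ range r, be c k l m j = F (j + 1) - F j := by
    intro j _
    simp only [be, K, hF]
    by_cases c1 : j < l
    · rw [if_pos c1, if_pos (by omega), if_pos (by omega)]
    · rw [if_neg c1, if_neg (by omega)]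
      by_cases c3 : j ≤ l
      · have : j = l := by omega
        subst this
        rw [if_pos le_rfl]; ring
      · rw [if_neg c3]; ring
  rw [sum_congr rfl h1, sum_range_sub]
  simp only [hF]
  rw [if_pos (Nat.zero_le l)]
  by_cases c1 : r ≤ l
  · have e1 : r = l := by omega
    subst e1
    rw [if_pos le_rfl]; ring
  · rw [if_neg c1]; ring

theorem core {p r : ℕ} {c : ℕ → ℕ → ℤ} (c00 : c 0 0 = 0) (cpr : c p r = 0)
    (nn1 : 0 ≤ c 0 r) (nn2 : 0 ≤ c p 0)
    (ca : ∀ i j, i + 2 ≤ p → j ≤ r → c (i + 2) j + c i j ≤ c (i + 1) j + c (i + 1) j)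
    (cb : ∀ i j, i ≤ p → j + 2 ≤ r → c i (j + 2) + c i j ≤ c i (j + 1) + c i (j + 1))
    (cr : ∀ i j, i < p → j < r → c (i + 1) (j + 1) + c i j ≤ c (i + 1) j + c i (j + 1))
    (ba : ∀ i j, i < p → j ≤ r → c (i + 1) j ≤ c i j + 1 ∧ c i j ≤ c (i + 1) j + 1)
    (bb : ∀ i j, i ≤ p → j < r → c i (j + 1) ≤ c i j + 1 ∧ c i j ≤ c i (j + 1) + 1) :
    ∃ k l m k' l' m', k ≤ m ∧ m ≤ p ∧ l ≤ r ∧ k' ≤ m' ∧ m' ≤ p ∧ l' ≤ r ∧
      (∀ i, i < p → al c r k l m (p - 1 - i) = - al c r k' l' m' i) ∧
      (∀ j, j < r → be c k l m (r - 1 - j) = - be c k' l' m' j) := by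
  -- monotonicity of steps
  have sa1 : ∀ i j j', i < p → j ≤ j' → j' ≤ r → c (i + 1) j' - c i j' ≤ c (i + 1) j - c i j := by
    intro i j j' hi hj hj'
    induction j', hj using Nat.le_induction with
    | base => exact le_rfl
    | succ t ht ih =>
      have h1 := ih (by omega)
      have h2 := cr i t hi (by omega)
      linarith
  have sa2 : ∀ i i' j, i ≤ i' → i' < p → j ≤ r → c (i' + 1) j - c i' j ≤ c (i + 1) j - c i j := by
    intro i i' j hi hi' hj
    induction i', hi using Nat.le_induction with
    | base => exact le_rfl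
    | succ t ht ih =>
      have h1 := ih (by omega)
      have h2 := ca t j (by omega) hj
      have e : t + 1 + 1 = t + 2 := rfl
      rw [e]
      linarith
  have sb1 : ∀ i i' j, i ≤ i' → i' ≤ p → j < r → c i' (j + 1) - c i' j ≤ c i (j + 1) - c i j := by
    intro i i' j hi hi' hj
    induction i', hi using Nat.le_induction with
    | base => exact le_rfl
    | succ t ht ih =>
      have h1 := ih (by omega)
      have h2 := cr t j (by omega) hj
      linarith
  have sb2 : ∀ i j j', j ≤ j' → j' < r → i ≤ p → c i (j' + 1) - c i j' ≤ c i (j + 1) - c i j := by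
    intro i j j' hj hj' hi
    induction j', hj using Nat.le_induction with
    | base => exact le_rfl
    | succ t ht ih =>
      have h1 := ih (by omega)
      have h2 := cb i t hi (by omega)
      have e : t + 1 + 1 = t + 2 := rfl
      rw [e]
      linarith
  have Jle : ∀ k l m i, l ≤ r → J r k l m i ≤ r := by
    intro k l m i hl
    unfold J
    split_ifs <;> omega
  have Jmono : ∀ k l m i i', l ≤ r → k ≤ m → i ≤ i' → J r k l m i ≤ J r k l m i' := by
    intro k l m i i' hl hkm hi
    unfold J
    split_ifs <;> omega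
  have Kle : ∀ k l m j, k ≤ m → m ≤ p → K k l m j ≤ p := by
    intro k l m j h1 h2
    unfold K
    split_ifs <;> omega
  have Kmono : ∀ k l m j j', k ≤ m → j ≤ j' → K k l m j ≤ K k l m j' := by
    intro k l m j j' h1 h2
    unfold K
    split_ifs <;> omega
  have ala : ∀ k l m, l ≤ r → k ≤ m → ∀ i i', i ≤ i' → i' < p → al c r k l m i' ≤ al c r k l m i := by
    intro k l m hl hkm i i' hi hi'
    have h1 := sa2 i i' (J r k l m i') hi hi' (Jle _ _ _ _ hl)
    have h2 := sa1 i _ _ (by omega : i < p) (Jmono k l m i i' hl hkm hi) (Jle _ _ _ _ hl)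
    exact h1.trans h2
  have bea : ∀ k l m, k ≤ m → m ≤ p → ∀ j j', j ≤ j' → j' < r → be c k l m j' ≤ be c k l m j := by
    intro k l m hkm hm j j' hj hj'
    have h1 := sb2 (K k l m j') j j' hj hj' (Kle _ _ _ _ hkm hm)
    have h2 := sb1 _ _ j (Kmono k l m j j' hkm hj) (Kle _ _ _ _ hkm hm) (by omega)
    exact h1.trans h2
  have alb : ∀ k l m, l ≤ r → ∀ i, i < p → -1 ≤ al c r k l m i ∧ al c r k l m i ≤ 1 := by
    intro k l m hl i hi
    have h1 := ba i (J r k l m i) hi (Jle _ _ _ _ hl)
    unfold al
    constructor <;> linarith [h1.1, h1.2]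
  have beb : ∀ k l m, k ≤ m → m ≤ p → ∀ j, j < r → -1 ≤ be c k l m j ∧ be c k l m j ≤ 1 := by
    intro k l m hkm hm j hj
    have h1 := bb (K k l m j) j (Kle _ _ _ _ hkm hm) hj
    unfold be
    constructor <;> linarith [h1.1, h1.2]
  have same : ∀ k l m, k ≤ m → m ≤ p → l ≤ r →
      c k 0 - c 0 0 + (c m l - c k l) + (c p r - c m r) = 0 →
      ∃ k l m k' l' m', k ≤ m ∧ m ≤ p ∧ l ≤ r ∧ k' ≤ m' ∧ m' ≤ p ∧ l' ≤ r ∧
      (∀ i, i < p → al c r k l m (p - 1 - i) = - al c r k' l' m' i) ∧
      (∀ j, j < r → be c k l m (r - 1 - j) = - be c k' l' m' j) := by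
    intro k l m hkm hm hl hz
    refine ⟨k, l, m, k, l, m, hkm, hm, hl, hkm, hm, hl, ?_, ?_⟩
    · refine pal (ala k l m hl hkm) (fun i hi => (alb k l m hl i hi).1)
        (fun i hi => (alb k l m hl i hi).2) ?_
      rw [sum_al c hkm hm, hz]
    · refine pal (bea k l m hkm hm) (fun i hi => (beb k l m hkm hm i hi).1)
        (fun i hi => (beb k l m hkm hm i hi).2) ?_
      rw [sum_be c hl]
      linarith
  by_cases hA : ∃ k, k ≤ p ∧ c k 0 - c k r = 0
  · obtain ⟨k, hk, h1⟩ := hA
    refine same k r k le_rfl hk le_rfl ?_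
    linarith
  push Not at hA
  obtain ⟨k, hk, h1, h2⟩ := ivt (P := fun k => c k 0 - c k r) p
    (by have := hA 0 (by omega); show c 0 0 - c 0 r < 0; omega)
    (by have := hA p le_rfl; show 0 < c p 0 - c p r; omega)
    (fun k hk => hA k hk)
  have h1' : c k 0 - c k r < 0 := h1
  have h2' : 0 < c (k + 1) 0 - c (k + 1) r := h2
  have b1 := ba k 0 hk (by omega)
  have b2 := ba k r hk le_rfl
  have v1 : c (k + 1) 0 - c k 0 = 1 := by omega
  have v2 : c (k + 1) r - c k r = -1 := by omega
  have v3 : c k 0 - c k r = -1 := by omega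
  by_cases hB : ∃ l, l ≤ r ∧ -(c (k + 1) l - c k l) = 0
  · obtain ⟨l, hl, h3⟩ := hB
    refine same k l (k + 1) (by omega) (by omega) hl ?_
    linarith
  push Not at hB
  obtain ⟨l, hl, h3, h4⟩ := ivt (P := fun l => -(c (k + 1) l - c k l)) r
    (by show -(c (k + 1) 0 - c k 0) < 0; omega)
    (by show 0 < -(c (k + 1) r - c k r); omega)
    (fun l hl => hB l hl)
  have h3' : -(c (k + 1) l - c k l) < 0 := h3
  have h4' : 0 < -(c (k + 1) (l + 1) - c k (l + 1)) := h4
  have b3 := ba k l hk (by omega)
  have b4 := ba k (l + 1) hk (by omega)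
  have v4 : c (k + 1) l - c k l = 1 := by omega
  have v5 : c (k + 1) (l + 1) - c k (l + 1) = -1 := by omega
  have b5 := bb k l (by omega) hl
  have b6 := bb (k + 1) l (by omega) hl
  refine ⟨k, l, k + 1, k, l + 1, k + 1, by omega, by omega, by omega, by omega, by omega,
    by omega, ?_, ?_⟩
  · refine pal2 (k := k) hk (ala _ _ _ (by omega) (by omega)) (ala _ _ _ (by omega) (by omega))
      (fun i hi => (alb _ _ _ (by omega) i hi).1) (fun i hi => (alb _ _ _ (by omega) i hi).2)
      ?_ ?_ ?_ ?_
    · intro i hi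
      have e : J r k l (k + 1) i = J r k (l + 1) (k + 1) i := by
        unfold J
        split_ifs <;> omega
      unfold al
      rw [e]
    · have e : J r k l (k + 1) k = l := by
        unfold J
        split_ifs <;> omega
      unfold al
      rw [e, v4]
    · have e : J r k (l + 1) (k + 1) k = l + 1 := by
        unfold J
        split_ifs <;> omega
      unfold al
      rw [e, v5]
    · rw [sum_al c (by omega) (by omega)]
      linarith
  · have h5 : ∀ j, j < r → be c k (l + 1) (k + 1) (r - 1 - j) = - be c k l (k + 1) j := by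
      refine pal2 (k := l) hl (bea _ _ _ (by omega) (by omega)) (bea _ _ _ (by omega) (by omega))
        (fun i hi => (beb _ _ _ (by omega) (by omega) i hi).1)
        (fun i hi => (beb _ _ _ (by omega) (by omega) i hi).2) ?_ ?_ ?_ ?_
      · intro j hj
        have e : K k (l + 1) (k + 1) j = K k l (k + 1) j := by
          unfold K
          split_ifs <;> omega
        unfold be
        rw [e]
      · have e : K k (l + 1) (k + 1) l = k := by
          unfold K
          split_ifs <;> omega
        unfold be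
        rw [e]
        omega
      · have e : K k l (k + 1) l = k + 1 := by
          unfold K
          split_ifs <;> omega
        unfold be
        rw [e]
        omega
      · rw [sum_be c (by omega)]
        linarith
    intro j hj
    have h6 := h5 (r - 1 - j) (by omega)
    have e1 : r - 1 - (r - 1 - j) = j := by omega
    rw [e1] at h6
    linarith

end Pool.Agent.P901b45t
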