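import Mathlib

/-!
Monotone paths on a grid (MP_901b45_co).
-/

set_option autoImplicit false

namespace Pool.Agent.P901b45t

variable {ι : Type} [DecidableEq ι]

/-- one step in direction `i` -/
def inc (n : ι → ℕ) (i : ι) : ι → ℕ := fun t => if t = i then n t + 1 else n t

theorem inc_self (n : ι → ℕ) (i : ι) : inc n i i = n i + 1 := by simp [inc]

theorem inc_ne (n : ι → ℕ) {i t : ι} (h : t ≠ i) : inc n i t = n t := by simp [inc, h]

theorem inc_comm (n : ι → ℕ) (i j : ι) : inc (inc n i) j = inc (inc n j) i := by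
  funext t
  simp only [inc]
  split_ifs <;> rfl

theorem le_inc (n : ι → ℕ) (i t : ι) : n t ≤ inc n i t := by
  simp only [inc]
  split_ifs <;> omega

/-- monotone paths on the grid with prescribed increments -/
inductive Path (c : (ι → ℕ) → ℤ) (x : ι → ℕ → ℤ) : (ι → ℕ) → Prop
  | nil : Path c x 0
  | step (n : ι → ℕ) (i : ι) : Path c x n → x i (n i) = c (inc n i) - c n → Path c x (inc n i)

/-- two paths whose increments are the negatives of each other, read backwards in each row -/
def Dbl (c : (ι → ℕ) → ℤ) (N : ι → ℕ) : Prop :=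
  ∃ x x' : ι → ℕ → ℤ, Path c x N ∧ Path c x' N ∧ ∀ i k, k < N i → x' i k = - x i (N i - 1 - k)

end Pool.Agent.P901b45t
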